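import Pool.Agent.P.MP_c7fa75_pr.R2.Iface

/-! Step ALO. -/

set_option autoImplicit false

namespace Pool.Agent.P.MP_c7fa75_pr.R2

open MeasureTheory ProbabilityTheory Filter Topology Finset
open scoped ENNReal Classical
open Pool.Agent.P.MP_c7fa75_pr.T

theorem p_ALO (hQLO : S_QLO) (hTAIL : S_TAIL) (hENV2 : S_ENV2) :
    S_ALO := by
  intro P0 _ γ A k C0 h01 hM hk hC0
  obtain ⟨C1, hC1, hQ⟩ := hQLO C0 hC0
  obtain ⟨M, hM0, hT⟩ := hTAIL P0 γ A k hM
  obtain ⟨-, -, -, hE, -⟩ := hENV2 P0 γ A h01 hM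
  refine ⟨C1 * (1 + M), by positivity, fun z κb κ hz hκ0 hκ2 hκ hff => ?_⟩
  have hz1 : (1 : ℝ) ≤ z := by exact_mod_cast (show 1 ≤ z by omega)
  set t : ℝ := (z : ℝ) ^ γ with ht
  have ht1 : 1 ≤ t := Real.one_le_rpow hz1 hM.1.le
  have ht0 : 0 < t := by linarith
  have ht2 : t ^ 2 ≤ z := by
    rw [ht, ← Real.rpow_natCast, ← Real.rpow_mul (by linarith)]
    calc (z : ℝ) ^ (γ * ((2 : ℕ) : ℝ)) ≤ (z : ℝ) ^ (1 : ℝ) :=
          Real.rpow_le_rpow_of_exponent_le hz1 (by push_cast; linarith [hM.2.1])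
      _ = z := Real.rpow_one _
  obtain ⟨i1, i2, e2⟩ := hE z
  obtain ⟨i3, e3⟩ := hT z (by omega)
  obtain ⟨-, i4, e4⟩ := Ex_Qa P0 (z + 1 - k) (4 * z) (fun a _ => ff κ a)
  have i5 : Integrable (fun w : ℕ → ℝ => C1 * (1 / t + t * min (((k : ℝ) + A w) ^ 2 / z) (k + A w)))
      P0 := ((integrable_const _).add (i3.const_mul t)).const_mul C1
  have i6 : Integrable (fun w : ℕ → ℝ => (1 : ℝ) - k + psum w z) P0 := (integrable_const _).add i1
  have i7 : Integrable (fun w : ℕ → ℝ => (1 : ℝ) - k + psum w z - κb) P0 :=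
    i6.sub (integrable_const _)
  have i8 : Integrable (fun w : ℕ → ℝ => (1 : ℝ) - k + psum w z - κb -
      win (fun i => |2 * w i - 1|) z) P0 := i7.sub i2
  have i9 : Integrable (fun w : ℕ → ℝ => (1 : ℝ) - k + psum w z - κb -
      win (fun i => |2 * w i - 1|) z -
      C1 * (1 / t + t * min (((k : ℝ) + A w) ^ 2 / z) (k + A w))) P0 := i8.sub i5
  have hle : ∫ w, (ff κ z + gg κ z * ((1 : ℝ) - k + psum w z - κb -
      win (fun i => |2 * w i - 1|) z -
      C1 * (1 / t + t * min (((k : ℝ) + A w) ^ 2 / z) (k + A w)))) ∂P0 ≤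
      ∫ w, Ex w (z + 1 - k) (4 * z) (fun a _ => ff κ a) ∂P0 := by
    refine integral_mono_ae ((integrable_const _).add (i9.const_mul _)) i4 ?_
    filter_upwards [h01, hM.2.2.2.2.2] with w hw hA
    exact hQ w hw (A w) hA k z t κb κ hk hz ht1 ht2 hκ0 hκ2 hκ hff
  rw [integral_add (integrable_const _) (i9.const_mul _), integral_const_mul, integral_sub i8 i5,
    integral_sub i7 i2, integral_sub i6 (integrable_const _),
    integral_add (integrable_const _) i1, integral_const_mul,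
    integral_add (integrable_const _) (i3.const_mul t), integral_const_mul, e2] at hle
  simp only [integral_const, probReal_univ, smul_eq_mul, one_mul] at hle
  rw [e4]
  refine le_trans ?_ hle
  have h1 : C1 * (1 / t + t * ∫ w, min (((k : ℝ) + A w) ^ 2 / z) (k + A w) ∂P0) ≤
      C1 * (1 + M) / t := by
    have : C1 * (1 + M) / t = C1 * (1 / t + M / t) := by ring
    rw [this]
    exact mul_le_mul_of_nonneg_left (by linarith) hC1
  have h2 := gg_pos κ z
  unfold dd
  nlinarith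

end Pool.Agent.P.MP_c7fa75_pr.R2
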