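import Pool.Agent.P.MP_c7fa75_pr.R2.Iface

/-! Step AUP. -/

set_option autoImplicit false

namespace Pool.Agent.P.MP_c7fa75_pr.R2

open MeasureTheory ProbabilityTheory Filter Topology Finset
open scoped ENNReal Classical
open Pool.Agent.P.MP_c7fa75_pr.T

namespace AUPx

theorem fatou (Q : Measure (ℕ → Bool)) (κ : ℕ → ℝ) (y N0 : ℕ) (R : ℝ)
    (hi : ∀ N, Integrable (fun e => ff κ (Rr e (tau e y N))) Q)
    (h : ∀ N, N0 ≤ N → ∫ e, ff κ (Rr e (tau e y N)) ∂Q ≤ R) :
    ∫⁻ e, ENNReal.ofReal (ff κ (Uo e y)) ∂Q ≤ ENNReal.ofReal R := by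
  have hpt : ∀ e : ℕ → Bool, ENNReal.ofReal (ff κ (Uo e y)) ≤
      liminf (fun N => ENNReal.ofReal (ff κ (Rr e (tau e y N)))) atTop := by
    intro e
    by_cases hex : ∃ n, y ≤ Ll e n
    · obtain ⟨n, hn⟩ := hex
      refine le_liminf_of_le (by isBoundedDefault) ?_
      filter_upwards [eventually_ge_atTop n] with N hN
      have h1 : Ll e (tau e y N) = y := (tau_cases e y N).resolve_right fun h' => by
        have := Ll_mono e hN
        omega
      rw [Uo_eq_of_tau h1]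
    · rw [Uo, dif_neg hex, ff_zero, ENNReal.ofReal_zero]
      exact zero_le
  refine (lintegral_mono hpt).trans ((lintegral_liminf_le fun N =>
    (meas_state y N (fun a _ => ff κ a)).ennreal_ofReal).trans ?_)
  refine liminf_le_of_frequently_le (Eventually.frequently ?_)
  filter_upwards [eventually_ge_atTop N0] with N hN
  rw [← ofReal_integral_eq_lintegral_ofReal (hi N) (ae_of_all _ fun e => ff_nonneg κ _)]
  exact ENNReal.ofReal_le_ofReal (h N hN)

theorem integ {Ω : Type} [MeasurableSpace Ω] (P : Measure Ω) [IsProbabilityMeasure P]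
    {f g h : Ω → ℝ} (hf : Integrable f P) (hg : Integrable g P) (hh : Integrable h P)
    (a b c d C s t : ℝ) :
    Integrable (fun w => a + b * (c + f w - d + g w + C * (s + t * h w))) P ∧
    ∫ w, (a + b * (c + f w - d + g w + C * (s + t * h w))) ∂P =
      a + b * (c + ∫ w, f w ∂P - d + ∫ w, g w ∂P + C * (s + t * ∫ w, h w ∂P)) := by
  have e : (fun w => a + b * (c + f w - d + g w + C * (s + t * h w))) =
      fun w => (a + b * (c - d + C * s)) + (b * f w + (b * g w + (b * C * t) * h w)) := by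
    funext w
    ring
  have i1 : Integrable (fun w => b * g w + (b * C * t) * h w) P :=
    (hg.const_mul b).add (hh.const_mul _)
  have i2 : Integrable (fun w => b * f w + (b * g w + (b * C * t) * h w)) P :=
    (hf.const_mul b).add i1
  rw [e]
  refine ⟨(integrable_const _).add i2, ?_⟩
  rw [integral_add (integrable_const _) i2, integral_add (hf.const_mul b) i1,
    integral_add (hg.const_mul b) (hh.const_mul _), integral_const_mul, integral_const_mul,
    integral_const_mul, integral_const]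
  simp only [probReal_univ, smul_eq_mul]
  ring

end AUPx

theorem p_AUP (hQUP : S_QUP) (hTAIL : S_TAIL) (hENV2 : S_ENV2) :
    S_AUP := by
  intro P0 _ γ A k h01 hM hk
  obtain ⟨C1, hC1, hQ⟩ := hQUP
  obtain ⟨M, hM0, hT⟩ := hTAIL P0 γ A k hM
  obtain ⟨-, -, -, hE, -⟩ := hENV2 P0 γ A h01 hM
  refine ⟨C1 * (1 + M), by positivity, fun z κb κ hz hκ h0 h2 hb => ?_⟩
  have hz1 : 1 ≤ z := by omega
  have hz1' : (1 : ℝ) ≤ z := by exact_mod_cast hz1
  obtain ⟨hTi, hTb⟩ := hT z hz1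
  obtain ⟨hE1, hE2, hE3⟩ := hE z
  have ht1 : 1 ≤ (z : ℝ) ^ γ := Real.one_le_rpow hz1' hM.1.le
  have ht2 : ((z : ℝ) ^ γ) ^ 2 ≤ z := by
    rw [← Real.rpow_natCast, ← Real.rpow_mul (by positivity)]
    calc (z : ℝ) ^ (γ * (2 : ℕ)) ≤ (z : ℝ) ^ (1 : ℝ) :=
          Real.rpow_le_rpow_of_exponent_le hz1' (by push_cast; linarith [hM.2.1])
      _ = z := Real.rpow_one _
  generalize (z : ℝ) ^ γ = t at hTb ht1 ht2 ⊢
  refine AUPx.fatou (Qa P0) κ (z + 1 - k) (4 * z) _
    (fun N => (Ex_Qa P0 (z + 1 - k) N (fun a _ => ff κ a)).1) fun N hN => ?_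
  obtain ⟨-, hI, hF⟩ := Ex_Qa P0 (z + 1 - k) N (fun a _ => ff κ a)
  obtain ⟨hJ, hV⟩ := AUPx.integ P0 hE1 hE2 hTi (ff κ z) (gg κ z) (1 - k) κb C1 (1 / t) t
  rw [hF]
  refine (integral_mono_ae hI hJ ?_).trans ?_
  · filter_upwards [h01, hM.2.2.2.2.2] with w hw hA
    exact hQ w hw (A w) hA k z N t κb κ hk hz hN ht1 ht2 hκ h0 h2 hb
  · rw [hV, hE3]
    have h3 := mul_le_mul_of_nonneg_left hTb hC1
    have h4 : C1 * (1 + M) / t = C1 * (1 / t) + C1 * (M / t) := by ring
    refine add_le_add le_rfl (mul_le_mul_of_nonneg_left ?_ (gg_pos κ z).le)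
    unfold dd
    rw [h4, mul_add]
    linarith

end Pool.Agent.P.MP_c7fa75_pr.R2
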