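import Pool.Agent.P.MP_c7fa75_pr.R2.Iface

/-! Step ENV1. -/

set_option autoImplicit false

namespace Pool.Agent.P.MP_c7fa75_pr.R2

open MeasureTheory ProbabilityTheory Filter Topology Finset
open scoped ENNReal Classical
open Pool.Agent.P.MP_c7fa75_pr.T

namespace ENV1x

theorem rpow_le_one_add (a q p : ℝ) (ha : 0 ≤ a) (hq : 0 ≤ q) (hqp : q ≤ p) :
    a ^ q ≤ 1 + a ^ p := by
  rcases le_total a 1 with h | h
  · have h1 : a ^ q ≤ 1 := Real.rpow_le_one ha h hq
    have h2 : 0 ≤ a ^ p := Real.rpow_nonneg ha p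
    linarith
  · have h1 : a ^ q ≤ a ^ p := Real.rpow_le_rpow_of_exponent_le h hqp
    linarith

theorem meas_T : Measurable (fun w : ℕ → ℝ => ∑' i : ℕ, ENNReal.ofReal |2 * w i - 1|) := by
  refine Measurable.ennreal_tsum (fun i => ?_)
  refine ENNReal.measurable_ofReal.comp ?_
  exact (((measurable_pi_apply i).const_mul 2).sub_const 1).abs

end ENV1x

theorem p_ENV1 :
    S_ENV1 := by
  intro P0 _ p hp hfin
  have hT := ENV1x.meas_T
  set T : (ℕ → ℝ) → ℝ≥0∞ := fun w => ∑' i : ℕ, ENNReal.ofReal |2 * w i - 1| with hTdef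
  have hTp : Measurable (fun w => T w ^ p) := hT.pow_const p
  have hae : ∀ᵐ w ∂P0, T w ^ p < ⊤ := ae_lt_top hTp hfin.ne
  have hp0 : 0 < p := by linarith
  have hA : Measurable (fun w => (T w).toReal) := hT.ennreal_toReal
  refine ⟨min ((p - 1) / 2) (1 / 2), fun w => (T w).toReal, ?_, min_le_right _ _, hA,
    fun w => ENNReal.toReal_nonneg, ?_, ?_⟩
  · exact lt_min (by linarith) (by norm_num)
  · have hint : Integrable (fun w => (T w ^ p).toReal) P0 :=
      integrable_toReal_of_lintegral_ne_top hTp.aemeasurable hfin.ne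
    have hq0 : 0 ≤ 1 + 2 * min ((p - 1) / 2) (1 / 2) := by
      have : 0 < min ((p - 1) / 2) (1 / 2 : ℝ) := lt_min (by linarith) (by norm_num)
      linarith
    have hqp : 1 + 2 * min ((p - 1) / 2) (1 / 2) ≤ p := by
      have : min ((p - 1) / 2) (1 / 2 : ℝ) ≤ (p - 1) / 2 := min_le_left _ _
      linarith
    refine Integrable.mono' ((integrable_const (1 : ℝ)).add hint)
      (hA.pow_const _).aestronglyMeasurable (Eventually.of_forall fun w => ?_)
    have h0 : 0 ≤ (T w).toReal := ENNReal.toReal_nonneg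
    rw [Real.norm_eq_abs, abs_of_nonneg (Real.rpow_nonneg h0 _)]
    have := ENV1x.rpow_le_one_add (T w).toReal _ p h0 hq0 hqp
    simp only [Pi.add_apply]
    rw [← ENNReal.toReal_rpow]
    exact this
  · filter_upwards [hae] with w hw n
    have hne : T w ≠ ⊤ := by
      intro h
      rw [h, ENNReal.top_rpow_of_pos hp0] at hw
      exact lt_irrefl _ hw
    have h1 : ∑ i ∈ range n, ENNReal.ofReal |2 * w i - 1| ≤ T w := ENNReal.sum_le_tsum _
    rw [← ENNReal.ofReal_sum_of_nonneg (fun i _ => abs_nonneg _)] at h1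
    exact (ENNReal.ofReal_le_iff_le_toReal hne).1 h1

end Pool.Agent.P.MP_c7fa75_pr.R2
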