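import Pool.Agent.P.MP_c7fa75_pr.R2.Iface

/-! Step ENV2. -/

set_option autoImplicit false

namespace Pool.Agent.P.MP_c7fa75_pr.R2

open MeasureTheory ProbabilityTheory Filter Topology Finset
open scoped ENNReal Classical
open Pool.Agent.P.MP_c7fa75_pr.T

namespace ENV2x

theorem le_one_add_rpow {x e : ℝ} (hx : 0 ≤ x) (he : 1 ≤ e) : x ≤ 1 + x ^ e := by
  rcases le_total x 1 with h | h
  · have := Real.rpow_nonneg hx e
    linarith
  · have h1 : x ^ (1 : ℝ) ≤ x ^ e := Real.rpow_le_rpow_of_exponent_le h he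
    rw [Real.rpow_one] at h1
    linarith

theorem intA {P0 : Measure (ℕ → ℝ)} [IsProbabilityMeasure P0] {γ : ℝ} {A : (ℕ → ℝ) → ℝ}
    (h : Mom P0 γ A) : Integrable A P0 := by
  obtain ⟨hγ, -, hm, h0, hi, -⟩ := h
  refine ((integrable_const (1 : ℝ)).add hi).mono' hm.aestronglyMeasurable
    (ae_of_all _ fun w => ?_)
  rw [Real.norm_of_nonneg (h0 w)]
  exact le_one_add_rpow (h0 w) (by linarith)

theorem intT {P0 : Measure (ℕ → ℝ)} [IsProbabilityMeasure P0] (h : In01 P0) (i : ℕ) :
    Integrable (fun w : ℕ → ℝ => 2 * w i - 1) P0 := by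
  have hm : Measurable (fun w : ℕ → ℝ => 2 * w i - 1) := by fun_prop
  refine Integrable.of_bound hm.aestronglyMeasurable 1 ?_
  filter_upwards [h] with w hw
  rw [Real.norm_eq_abs, abs_le]
  constructor <;> linarith [(hw i).1, (hw i).2]

theorem intP {P0 : Measure (ℕ → ℝ)} [IsProbabilityMeasure P0] (h : In01 P0) (n : ℕ) :
    Integrable (fun w : ℕ → ℝ => psum w n) P0 :=
  integrable_finsetSum (range n) fun i _ => intT h i

theorem intS {P0 : Measure (ℕ → ℝ)} [IsProbabilityMeasure P0] (h : In01 P0) (s : Finset ℕ) :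
    Integrable (fun w : ℕ → ℝ => ∑ i ∈ s, |2 * w i - 1|) P0 :=
  integrable_finsetSum s fun i _ => (intT h i).abs

theorem intS_eq {P0 : Measure (ℕ → ℝ)} [IsProbabilityMeasure P0] (h : In01 P0) (s : Finset ℕ) :
    ∫ w, ∑ i ∈ s, |2 * w i - 1| ∂P0 = ∑ i ∈ s, al P0 i :=
  integral_finsetSum s fun i _ => (intT h i).abs

theorem al_nonneg (P0 : Measure (ℕ → ℝ)) (i : ℕ) : 0 ≤ al P0 i :=
  integral_nonneg fun _ => abs_nonneg _

theorem dd_eq {P0 : Measure (ℕ → ℝ)} [IsProbabilityMeasure P0] (h : In01 P0) (n : ℕ) :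
    dd P0 n = ∑ i ∈ range n, ∫ w, (2 * w i - 1) ∂P0 :=
  integral_finsetSum (range n) fun i _ => intT h i

end ENV2x

open ENV2x in
theorem p_ENV2 :
    S_ENV2 := by
  intro P0 _ γ A h01 hM
  have hA := intA hM
  have hb := hM.2.2.2.2.2
  have hs : Summable (al P0) := by
    refine summable_of_sum_range_le (c := ∫ w, A w ∂P0) (al_nonneg P0) fun n => ?_
    rw [← intS_eq h01]
    refine integral_mono_ae (intS h01 _) hA ?_
    filter_upwards [hb] with w hw using hw n
  refine ⟨hs, ?_, ?_, ?_, ?_, ?_⟩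
  · have h1 : Summable (fun i : ℕ => ∫ w, (2 * w i - 1) ∂P0) :=
      Summable.of_norm_bounded hs fun i => by
        rw [Real.norm_eq_abs]
        exact abs_integral_le_integral_abs
    refine ⟨_, (h1.hasSum.tendsto_sum_nat).congr fun n => (dd_eq h01 n).symm⟩
  · intro z n h1 h2
    have e : dd P0 n - dd P0 z = ∫ w, (psum w n - psum w z) ∂P0 :=
      (integral_sub (intP h01 n) (intP h01 z)).symm
    rw [e]
    refine abs_integral_le_integral_abs.trans ?_
    have e2 : win (al P0) z = ∫ w, win (fun i => |2 * w i - 1|) z ∂P0 := (intS_eq h01 _).symm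
    rw [e2]
    exact integral_mono ((intP h01 n).sub (intP h01 z)).abs (intS h01 _)
      fun w => abs_psum_win w h1 h2
  · intro z
    exact ⟨intP h01 z, intS h01 _, intS_eq h01 _⟩
  · filter_upwards [hb] with w hw
    have h1 : Summable (fun i : ℕ => |2 * w i - 1|) :=
      summable_of_sum_range_le (fun _ => abs_nonneg _) hw
    have h2 : Summable (fun i : ℕ => 2 * w i - 1) := h1.of_abs
    exact ⟨_, (continuous_coe_real_ereal.tendsto _).comp h2.hasSum.tendsto_sum_nat⟩
  · refine lt_of_le_of_lt (lintegral_mono_ae ?_) hA.lintegral_lt_top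
    filter_upwards [hb] with w hw
    refine iSup_le fun n => ENNReal.ofReal_le_ofReal ?_
    exact (neg_le_abs _).trans ((abs_psum_le w n).trans (hw n))

end Pool.Agent.P.MP_c7fa75_pr.R2
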