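import Pool.Agent.P.MP_c7fa75_pr.R2.Iface

/-! Step LOSS. -/

set_option autoImplicit false

namespace Pool.Agent.P.MP_c7fa75_pr.R2

open MeasureTheory ProbabilityTheory Filter Topology Finset
open scoped ENNReal Classical
open Pool.Agent.P.MP_c7fa75_pr.T

namespace LOSSx

theorem step {κ : ℕ → ℝ} {p : ℝ} (hp : 0 ≤ p) (hκ : ∀ n, κ n ≤ p) (i : ℕ) (hi : 1 ≤ i) :
    gg κ i * (i : ℝ) ^ p ≤ gg κ (i + 1) * ((i + 1 : ℕ) : ℝ) ^ p := by
  have hi0 : (0 : ℝ) < i := by exact_mod_cast hi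
  have hi1 : (0 : ℝ) < (i : ℝ) + 1 := by linarith
  rw [gg_succ, mul_assoc]
  refine mul_le_mul_of_nonneg_left ?_ (gg_pos κ i).le
  push_cast
  rw [Real.rpow_def_of_pos hi0, Real.rpow_def_of_pos hi1, ← Real.exp_add]
  refine Real.exp_le_exp.2 ?_
  have h1 : 1 - (((i : ℝ) + 1) / i)⁻¹ ≤ Real.log (((i : ℝ) + 1) / i) :=
    Real.one_sub_inv_le_log_of_pos (div_pos hi1 hi0)
  rw [Real.log_div hi1.ne' hi0.ne'] at h1
  have h2 : 1 - (((i : ℝ) + 1) / i)⁻¹ = 1 / ((i : ℝ) + 1) := by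
    field_simp
    ring
  rw [h2] at h1
  have h3 : κ (i + 1) / ((i : ℝ) + 1) ≤ p * (1 / ((i : ℝ) + 1)) := by
    rw [mul_one_div]
    exact div_le_div_of_nonneg_right (hκ _) hi1.le
  have h4 := mul_le_mul_of_nonneg_left h1 hp
  nlinarith

theorem mono {κ : ℕ → ℝ} {p : ℝ} (hp : 0 ≤ p) (hκ : ∀ n, κ n ≤ p) (i : ℕ) (hi : 1 ≤ i)
    (z : ℕ) (hz : i ≤ z) : gg κ i * (i : ℝ) ^ p ≤ gg κ z * (z : ℝ) ^ p := by
  induction z, hz using Nat.le_induction with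
  | base => exact le_rfl
  | succ z hz ih => exact ih.trans (step hp hκ z (hi.trans hz))

end LOSSx

theorem p_LOSS :
    S_LOSS := by
  intro γ hγ hγ1
  have hp : (0 : ℝ) ≤ 1 + γ := by linarith
  have hs : Summable (fun n : ℕ => 1 / (n : ℝ) ^ (1 + γ)) :=
    Real.summable_one_div_nat_rpow.2 (by linarith)
  have hnn : ∀ n : ℕ, 0 ≤ 1 / (n : ℝ) ^ (1 + γ) := fun n => by positivity
  refine ⟨Real.exp 2 + ∑' n : ℕ, 1 / (n : ℝ) ^ (1 + γ), ?_, ?_⟩
  · have : 0 ≤ ∑' n : ℕ, 1 / (n : ℝ) ^ (1 + γ) := tsum_nonneg hnn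
    have := Real.exp_pos 2
    linarith
  intro κ hκ z hz
  have hz0 : (0 : ℝ) < z := by exact_mod_cast hz
  set H : ℝ := gg κ z * (z : ℝ) ^ (1 + γ) with hH
  have hH0 : 0 ≤ H := mul_nonneg (gg_pos κ z).le (by positivity)
  have hb : ∀ i ∈ range z, gg κ i ≤
      ((if i = 0 then Real.exp 2 else 0) + 1 / (i : ℝ) ^ (1 + γ)) * H := by
    intro i hi
    have hiz : i ≤ z := (mem_range.1 hi).le
    by_cases h0 : i = 0
    · subst h0
      have h1 := LOSSx.mono hp hκ 1 le_rfl z hz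
      rw [Nat.cast_one, Real.one_rpow, mul_one] at h1
      have h2 : gg κ 1 = Real.exp (-(κ 1)) := by
        have := gg_succ κ 0
        simpa [gg_zero] using this
      have h3 : (1 : ℝ) ≤ Real.exp 2 * gg κ 1 := by
        rw [h2, ← Real.exp_add]
        exact Real.one_le_exp (by have := hκ 1; linarith)
      have h4 := mul_le_mul_of_nonneg_left h1 (Real.exp_pos 2).le
      have h5 := mul_nonneg (hnn 0) hH0
      rw [gg_zero, if_pos rfl, add_mul]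
      linarith
    · have hi1 : 1 ≤ i := Nat.one_le_iff_ne_zero.2 h0
      have hi0 : (0 : ℝ) < i := by exact_mod_cast hi1
      have h1 := LOSSx.mono hp hκ i hi1 z hiz
      have h2 : (0 : ℝ) < (i : ℝ) ^ (1 + γ) := Real.rpow_pos_of_pos hi0 _
      rw [if_neg h0, zero_add, one_div, inv_mul_eq_div, le_div_iff₀ h2]
      exact h1
  have hsum : ∑ i ∈ range z, ((if i = 0 then Real.exp 2 else 0) + 1 / (i : ℝ) ^ (1 + γ)) ≤
      Real.exp 2 + ∑' n : ℕ, 1 / (n : ℝ) ^ (1 + γ) := by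
    rw [sum_add_distrib]
    refine add_le_add ?_ (hs.sum_le_tsum _ fun n _ => hnn n)
    rw [sum_ite_eq']
    split_ifs
    · exact le_rfl
    · exact (Real.exp_pos 2).le
  have hpow : (z : ℝ) ^ (1 + γ) = z * (z : ℝ) ^ γ := by
    rw [Real.rpow_add hz0, Real.rpow_one]
  calc ff κ z = ∑ i ∈ range z, gg κ i := rfl
    _ ≤ ∑ i ∈ range z,
        ((if i = 0 then Real.exp 2 else 0) + 1 / (i : ℝ) ^ (1 + γ)) * H := sum_le_sum hb
    _ = (∑ i ∈ range z,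
        ((if i = 0 then Real.exp 2 else 0) + 1 / (i : ℝ) ^ (1 + γ))) * H := by rw [sum_mul]
    _ ≤ (Real.exp 2 + ∑' n : ℕ, 1 / (n : ℝ) ^ (1 + γ)) * H :=
        mul_le_mul_of_nonneg_right hsum hH0
    _ = _ := by rw [hH, hpow]; ring

end Pool.Agent.P.MP_c7fa75_pr.R2
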