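import Pool.Agent.P.MP_c7fa75_pr.R2.Iface

/-! Step LYK. -/

set_option autoImplicit false

namespace Pool.Agent.P.MP_c7fa75_pr.R2

open MeasureTheory ProbabilityTheory Filter Topology Finset
open scoped ENNReal Classical
open Pool.Agent.P.MP_c7fa75_pr.T

theorem p_LYK (hAUP : S_AUP) (hENV2 : S_ENV2) (hSLACK : S_SLACK) (hSEQ : S_SEQ) :
    S_LYK := by
  intro P0 _ γ A k h01 hM hk hns
  obtain ⟨C, hC0, hC⟩ := hAUP P0 γ A k h01 hM hk
  obtain ⟨hsum, ⟨L, hL⟩, hwin, -, -, -⟩ := hENV2 P0 γ A h01 hM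
  have hγ0 : 0 < γ := hM.1
  have hγ1 : γ ≤ 1 := hM.2.1.trans (by norm_num)
  have hal : ∀ i, 0 ≤ al P0 i := fun i => integral_nonneg fun _ => abs_nonneg _
  obtain ⟨sl, hsl0, hsl, hsls, hslw⟩ := hSLACK (al P0) γ C hal hsum hγ0 hγ1 hC0
  set th : ℕ → ℝ := fun n => 1 - k + dd P0 n with hth
  have hthL : Tendsto th atTop (𝓝 (1 - k + L)) := tendsto_const_nhds.add hL
  obtain ⟨hL1, hns2⟩ := (hSEQ th sl (1 - k + L) 2 hthL hsl0 hsl hsls (by norm_num)).2 hns
  set ka : ℕ → ℝ := fun n => max 0 (th n + sl n) with hka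
  have hff : Tendsto (ff ka) atTop atTop :=
    (not_summable_iff_tendsto_nat_atTop_of_nonneg (fun i => (gg_pos ka i).le)).1 hns2
  have hev : ∀ᶠ z in atTop, th z + sl z < 2 := by
    have h1 : Tendsto (fun z => th z + sl z) atTop (𝓝 (1 - k + L + 0)) := hthL.add hsl
    exact h1.eventually (gt_mem_nhds (by linarith))
  obtain ⟨z1, hz1⟩ := eventually_atTop.1 hev
  refine ⟨fun x => ENNReal.ofReal (ff ka x), max z1 (max 6 (2 * k)), fun _ => ENNReal.ofReal_lt_top,
    ENNReal.tendsto_ofReal_atTop.comp hff, fun z hz => ?_⟩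
  have hza : z1 ≤ z := (le_max_left _ _).trans hz
  have hz6 : 6 ≤ z := ((le_max_left _ _).trans (le_max_right _ _)).trans hz
  have hzk : 2 * k ≤ z := ((le_max_right _ _).trans (le_max_right _ _)).trans hz
  have hw0 : 0 ≤ win (al P0) z := sum_nonneg fun i _ => hal i
  set err : ℝ := win (al P0) z + C / (z : ℝ) ^ γ with herr
  have hkey : ∀ n, 3 * z ≤ 4 * n → 4 * n ≤ 5 * z → th z + err ≤ th n + sl n := by
    intro n h1 h2
    have h3 := hwin z n (by omega) (by omega)
    have h4 := hslw z n hz6 h1 h2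
    have h5 := (abs_le.1 h3).1
    simp only [hth, herr]
    linarith
  have hkb2 : max 0 (th z + err) ≤ 2 :=
    max_le (by norm_num) ((hkey z (by omega) (by omega)).trans (hz1 z hza).le)
  refine (hC z (max 0 (th z + err)) ka hzk (fun n => le_max_left _ _) (le_max_left _ _) hkb2
    (fun n h1 h2 => max_le_max le_rfl (hkey n h1 h2))).trans (ENNReal.ofReal_le_ofReal ?_)
  have h6 : th z + err ≤ max 0 (th z + err) := le_max_right _ _
  have h7 : 1 - k + dd P0 z - max 0 (th z + err) + win (al P0) z + C / (z : ℝ) ^ γ ≤ 0 := by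
    have : th z = 1 - k + dd P0 z := rfl
    simp only [herr] at h6 ⊢
    linarith
  have h8 := mul_nonpos_of_nonneg_of_nonpos (gg_pos ka z).le h7
  linarith

end Pool.Agent.P.MP_c7fa75_pr.R2
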