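import Pool.Agent.P.MP_c7fa75_pr.R2.Iface

/-! Step LYS. -/

set_option autoImplicit false

namespace Pool.Agent.P.MP_c7fa75_pr.R2

open MeasureTheory ProbabilityTheory Filter Topology Finset
open scoped ENNReal Classical
open Pool.Agent.P.MP_c7fa75_pr.T

namespace LYSx

theorem ff_lt (κ : ℕ → ℝ) (h : Summable (gg κ)) (x : ℕ) : ff κ x < ∑' i, gg κ i := by
  have h1 : ff κ (x + 1) ≤ ∑' i, gg κ i :=
    h.sum_le_tsum (range (x + 1)) fun i _ => (gg_pos κ i).le
  exact (ff_strictMono κ (Nat.lt_succ_self x)).trans_le h1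

theorem ff_tendsto (κ : ℕ → ℝ) (h : Summable (gg κ)) :
    Tendsto (ff κ) atTop (𝓝 (∑' i, gg κ i)) :=
  h.hasSum.tendsto_sum_nat

/-- From a submartingale of the scale function to the supermartingale of the statement. -/
theorem fin (P0 : Measure (ℕ → ℝ)) [IsProbabilityMeasure P0] (κ : ℕ → ℝ) (h : Summable (gg κ))
    (k z0 : ℕ) (hk : k ≤ z0)
    (hz : ∀ z, z0 ≤ z → ff κ z ≤ ∫ e, ff κ (Rr e (tau e (z + 1 - k) (4 * z))) ∂Qa P0) :
    ∃ (f : ℕ → ℝ≥0∞) (z0 : ℕ), k ≤ z0 ∧ (∀ z, z < z0 → 1 ≤ f z) ∧ Tendsto f atTop (𝓝 0) ∧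
      ∀ z, z0 ≤ z → ∫⁻ e, f (Rr e (tau e (z + 1 - k) (4 * z))) ∂Qa P0 ≤ f z := by
  set S : ℝ := ∑' i, gg κ i with hS
  have hpos : ∀ x, 0 < S - ff κ x := fun x => sub_pos.2 (ff_lt κ h x)
  refine ⟨fun x => ENNReal.ofReal ((S - ff κ x) / (S - ff κ z0)), z0, hk, fun z hzz => ?_, ?_,
    fun z hzz => ?_⟩
  · rw [ENNReal.one_le_ofReal, one_le_div (hpos z0)]
    linarith [ff_mono κ hzz.le]
  · have h1 : Tendsto (fun x => (S - ff κ x) / (S - ff κ z0)) atTop
        (𝓝 ((S - S) / (S - ff κ z0))) :=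
      (tendsto_const_nhds.sub (ff_tendsto κ h)).div_const _
    rw [sub_self, zero_div] at h1
    simpa using ENNReal.tendsto_ofReal h1
  · have hi := (Ex_Qa P0 (z + 1 - k) (4 * z) (fun a _ => ff κ a)).1
    have hi2 : Integrable (fun e => (S - ff κ (Rr e (tau e (z + 1 - k) (4 * z)))) / (S - ff κ z0))
        (Qa P0) := ((integrable_const S).sub hi).div_const _
    rw [← ofReal_integral_eq_lintegral_ofReal hi2
      (ae_of_all _ fun e => div_nonneg (hpos _).le (hpos _).le)]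
    refine ENNReal.ofReal_le_ofReal ?_
    rw [integral_div, integral_sub (integrable_const S) hi]
    refine div_le_div_of_nonneg_right ?_ (hpos _).le
    have := hz z hzz
    simp only [integral_const, probReal_univ, smul_eq_mul, one_mul]
    linarith

end LYSx

theorem p_LYS (hALO : S_ALO) (hENV2 : S_ENV2) (hSLACK : S_SLACK) (hSEQ : S_SEQ) (hLOSS : S_LOSS) :
    S_LYS := by
  intro P0 _ γ A k h01 hM hk hsum
  obtain ⟨hal, ⟨L, hL⟩, hwin, -, -⟩ := hENV2 P0 γ A h01 hM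
  have hγ0 : 0 < γ := hM.1
  have hγ1 : γ ≤ 1 / 2 := hM.2.1
  obtain ⟨C0, hC0, hloss⟩ := hLOSS γ hγ0 (by linarith)
  obtain ⟨C, hC, halo⟩ := hALO P0 γ A k C0 h01 hM hk hC0
  have hal0 : ∀ i, 0 ≤ al P0 i := fun i => integral_nonneg fun _ => abs_nonneg _
  obtain ⟨sl, hsl0, hsl1, hsl2, hsl3⟩ := hSLACK (al P0) γ C hal0 hal hγ0 (by linarith) hC
  set th : ℕ → ℝ := fun n => 1 - k + dd P0 n with hth
  have hthL : Tendsto th atTop (𝓝 (1 - k + L)) := tendsto_const_nhds.add hL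
  obtain ⟨hL1, hsk⟩ := (hSEQ th sl (1 - k + L) (1 + γ) hthL hsl0 hsl1 hsl2 (by linarith)).1 hsum
  set ka : ℕ → ℝ := fun n => max 0 (min (1 + γ) (th n - sl n)) with hka
  have hev : ∀ᶠ z in atTop, 0 < th z - sl z :=
    (hthL.sub hsl1).eventually (lt_mem_nhds (by linarith))
  obtain ⟨z1, hz1⟩ := eventually_atTop.1 hev
  refine LYSx.fin P0 ka hsk k (max z1 (max 6 (2 * k))) (by omega) fun z hz => ?_
  have hzz1 : z1 ≤ z := by omega
  have hz6 : 6 ≤ z := by omega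
  have hz2 : 2 * k ≤ z := by omega
  have hw0 : 0 ≤ win (al P0) z := sum_nonneg fun i _ => hal0 i
  set err : ℝ := win (al P0) z + C / (z : ℝ) ^ γ with herr
  have hes : err ≤ sl z := by
    have := hsl3 z z hz6 (by omega) (by omega)
    linarith
  have hte : 0 ≤ th z - err := by linarith [hz1 z hzz1]
  set kb : ℝ := min (1 + γ) (th z - err) with hkb
  have hkb0 : 0 ≤ kb := le_min (by linarith) hte
  have hkb2 : kb ≤ 2 := (min_le_left _ _).trans (by linarith)
  have hkk : ∀ n, 3 * z ≤ 4 * n → 4 * n ≤ 5 * z → ka n ≤ kb := by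
    intro n h1 h2
    refine max_le hkb0 (min_le_min_left _ ?_)
    have h3 := hsl3 z n hz6 h1 h2
    have h4 := (abs_le.1 (hwin z n (by omega) (by omega))).2
    simp only [hth]
    linarith
  have hkg : ∀ n, ka n ≤ 1 + γ := fun n => max_le (by linarith) (min_le_left _ _)
  have h5 := halo z kb ka hz2 hkb0 hkb2 hkk (hloss ka hkg z (by omega))
  have h6 : 0 ≤ 1 - k + dd P0 z - kb - win (al P0) z - C / (z : ℝ) ^ γ := by
    have : kb ≤ th z - err := min_le_right _ _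
    simp only [hth] at this
    linarith
  have h7 := mul_nonneg (gg_pos ka z).le h6
  linarith

end Pool.Agent.P.MP_c7fa75_pr.R2
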