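import Pool.Agent.P.MP_c7fa75_pr.R2.Iface

/-! Step PLO. -/

set_option autoImplicit false

namespace Pool.Agent.P.MP_c7fa75_pr.R2

open MeasureTheory ProbabilityTheory Filter Topology Finset
open scoped ENNReal Classical
open Pool.Agent.P.MP_c7fa75_pr.T

namespace PLOx

theorem sum_le {κ : ℕ → ℝ} {κb : ℝ} (h0 : 0 ≤ κb) {y j : ℕ} (hy : 0 < y)
    (h : ∀ n, n < j → κ (y + n + 1) ≤ κb) :
    ∑ n ∈ range j, κ (y + n + 1) / ((y : ℝ) + n + 1) ≤ κb * j / y := by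
  have hy' : (0 : ℝ) < y := by exact_mod_cast hy
  have h1 : ∀ n ∈ range j, κ (y + n + 1) / ((y : ℝ) + n + 1) ≤ κb / y := by
    intro n hn
    have hn' : (0 : ℝ) ≤ n := Nat.cast_nonneg n
    calc κ (y + n + 1) / ((y : ℝ) + n + 1) ≤ κb / ((y : ℝ) + n + 1) :=
          div_le_div_of_nonneg_right (h n (mem_range.1 hn)) (by linarith)
      _ ≤ κb / y := div_le_div_of_nonneg_left h0 hy' (by linarith)
  have h2 := sum_le_sum h1
  rw [sum_const, card_range, nsmul_eq_mul] at h2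
  calc _ ≤ (j : ℝ) * (κb / y) := h2
    _ = κb * j / y := by ring

theorem up {κ : ℕ → ℝ} {κb : ℝ} (h0 : 0 ≤ κb) {z : ℕ} (hz : 0 < z)
    (h : ∀ n, 3 * z ≤ 4 * n → 4 * n ≤ 5 * z → κ n ≤ κb) :
    ∀ j : ℕ, 4 * j ≤ z → gg κ z * ((j : ℝ) - κb * (j : ℝ) ^ 2 / (2 * z)) ≤ ff κ (z + j) - ff κ z := by
  have hz' : (0 : ℝ) < z := by exact_mod_cast hz
  have hg := gg_pos κ z
  intro j
  induction j with
  | zero => intro _; simp
  | succ j ih =>
    intro hj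
    have h1 := ih (by omega)
    have h2 := sum_le (κ := κ) h0 hz (j := j) fun n hn => h _ (by omega) (by omega)
    have h3 : 1 - κb * j / z ≤
        Real.exp (-∑ n ∈ range j, κ (z + n + 1) / ((z : ℝ) + n + 1)) := by
      have := Real.add_one_le_exp (-∑ n ∈ range j, κ (z + n + 1) / ((z : ℝ) + n + 1))
      linarith
    have h4 : gg κ z * (1 - κb * j / z) ≤ gg κ (z + j) := by
      rw [gg_add]
      exact mul_le_mul_of_nonneg_left h3 hg.le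
    have h5 : ((j + 1 : ℕ) : ℝ) - κb * ((j + 1 : ℕ) : ℝ) ^ 2 / (2 * z) ≤
        ((j : ℝ) - κb * (j : ℝ) ^ 2 / (2 * z)) + (1 - κb * j / z) := by
      have e : ((j + 1 : ℕ) : ℝ) - κb * ((j + 1 : ℕ) : ℝ) ^ 2 / (2 * z) =
          ((j : ℝ) - κb * (j : ℝ) ^ 2 / (2 * z)) + (1 - κb * j / z) - κb / (2 * z) := by
        push_cast
        field_simp
        ring
      have : 0 ≤ κb / (2 * z) := by positivity
      linarith
    have h6 := mul_le_mul_of_nonneg_left h5 hg.le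
    rw [← add_assoc, ff_succ]
    nlinarith

theorem gg_le {κ : ℕ → ℝ} {κb : ℝ} (h0 : 0 ≤ κb) (h2 : κb ≤ 2) {z : ℕ} (hz : 0 < z)
    (h : ∀ n, 3 * z ≤ 4 * n → 4 * n ≤ 5 * z → κ n ≤ κb) {y j : ℕ} (hy : y + j = z)
    (hj : 4 * j ≤ z) :
    gg κ y ≤ gg κ z * (1 + κb * j / z + 10 * (j : ℝ) ^ 2 / (z : ℝ) ^ 2) := by
  have hz' : (0 : ℝ) < z := by exact_mod_cast hz
  have hy0 : 0 < y := by omega
  have hy' : (0 : ℝ) < y := by exact_mod_cast hy0
  have hj0 : (0 : ℝ) ≤ j := Nat.cast_nonneg j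
  have hyj : (y : ℝ) + j = z := by exact_mod_cast hy
  have hj' : 4 * (j : ℝ) ≤ z := by exact_mod_cast hj
  have hs := sum_le (κ := κ) h0 hy0 (j := j) fun n hn => h _ (by omega) (by omega)
  set S := ∑ n ∈ range j, κ (y + n + 1) / ((y : ℝ) + n + 1) with hS
  have e1 : gg κ z = gg κ y * Real.exp (-S) := by rw [← hy, gg_add]
  have e2 : gg κ y = gg κ z * Real.exp S := by
    rw [e1, mul_assoc, ← Real.exp_add, neg_add_cancel, Real.exp_zero, mul_one]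
  rw [e2]
  refine mul_le_mul_of_nonneg_left ?_ (gg_pos κ z).le
  set r := (j : ℝ) / z with hr
  have hr0 : 0 ≤ r := by positivity
  have hr1 : r ≤ 1 / 4 := by rw [hr, div_le_iff₀ hz']; linarith
  set q := (j : ℝ) / y with hq
  have hq0 : 0 ≤ q := by positivity
  have hq1 : q ≤ 4 / 3 * r := by
    rw [hq, hr, div_le_iff₀ hy']
    have : 4 / 3 * ((j : ℝ) / z) * y = j * (4 * y / (3 * z)) := by field_simp
    rw [this]
    refine le_mul_of_one_le_right hj0 ?_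
    rw [le_div_iff₀ (by positivity)]
    linarith
  have hq2 : q = r + r * q := by
    rw [hq, hr]
    field_simp
    linarith [congrArg (fun u => (j : ℝ) * u) hyj]
  have hv : κb * j / y = κb * q := by rw [hq]; ring
  rw [hv] at hs
  have hv0 : 0 ≤ κb * q := mul_nonneg h0 hq0
  have hv1 : κb * q ≤ 8 / 3 * r := by nlinarith
  have h3 : |κb * q| ≤ 1 := by rw [abs_of_nonneg hv0]; linarith
  have h4 := (abs_le.1 (Real.abs_exp_sub_one_sub_id_le h3)).2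
  have h5 : Real.exp S ≤ Real.exp (κb * q) := Real.exp_le_exp.2 hs
  have e3 : 1 + κb * j / z + 10 * (j : ℝ) ^ 2 / (z : ℝ) ^ 2 = 1 + κb * r + 10 * r ^ 2 := by
    rw [hr]; ring
  rw [e3]
  have h6 : (κb * q) ^ 2 ≤ (8 / 3 * r) ^ 2 := pow_le_pow_left₀ hv0 hv1 2
  have h7 : κb * q = κb * r + r * (κb * q) := by
    conv_lhs => rw [hq2]
    ring
  have h8 : r * (κb * q) ≤ r * (8 / 3 * r) := mul_le_mul_of_nonneg_left hv1 hr0
  nlinarith [sq_nonneg r]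

theorem down {κ : ℕ → ℝ} {κb : ℝ} (h0 : 0 ≤ κb) (h2 : κb ≤ 2) {z : ℕ} (hz : 0 < z)
    (h : ∀ n, 3 * z ≤ 4 * n → 4 * n ≤ 5 * z → κ n ≤ κb) :
    ∀ j y : ℕ, y + j = z → 4 * j ≤ z → ff κ z - ff κ y ≤
      gg κ z * ((j : ℝ) + κb * (j * (j + 1)) / (2 * z) + 10 * (j : ℝ) ^ 3 / (z : ℝ) ^ 2) := by
  have hz' : (0 : ℝ) < z := by exact_mod_cast hz
  have hg := gg_pos κ z
  intro j
  induction j with
  | zero =>
    intro y hy _
    obtain rfl : y = z := by omega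
    simp
  | succ j ih =>
    intro y hy hj
    have h1 := ih (y + 1) (by omega) (by omega)
    have h3 := gg_le h0 h2 hz h hy hj
    have hj0 : (0 : ℝ) ≤ j := Nat.cast_nonneg j
    rw [ff_succ] at h1
    have h5 : ((j : ℝ) + κb * (j * (j + 1)) / (2 * z) + 10 * (j : ℝ) ^ 3 / (z : ℝ) ^ 2) +
        (1 + κb * ((j + 1 : ℕ) : ℝ) / z + 10 * ((j + 1 : ℕ) : ℝ) ^ 2 / (z : ℝ) ^ 2) ≤
        ((j + 1 : ℕ) : ℝ) + κb * (((j + 1 : ℕ) : ℝ) * (((j + 1 : ℕ) : ℝ) + 1)) / (2 * z) +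
          10 * ((j + 1 : ℕ) : ℝ) ^ 3 / (z : ℝ) ^ 2 := by
      have e : ((j + 1 : ℕ) : ℝ) + κb * (((j + 1 : ℕ) : ℝ) * (((j + 1 : ℕ) : ℝ) + 1)) / (2 * z) +
          10 * ((j + 1 : ℕ) : ℝ) ^ 3 / (z : ℝ) ^ 2 =
          ((j : ℝ) + κb * (j * (j + 1)) / (2 * z) + 10 * (j : ℝ) ^ 3 / (z : ℝ) ^ 2) +
        (1 + κb * ((j + 1 : ℕ) : ℝ) / z + 10 * ((j + 1 : ℕ) : ℝ) ^ 2 / (z : ℝ) ^ 2) +
          10 * (2 * (j : ℝ) ^ 2 + j) / (z : ℝ) ^ 2 := by
        push_cast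
        field_simp
        ring
      have : 0 ≤ 10 * (2 * (j : ℝ) ^ 2 + j) / (z : ℝ) ^ 2 := by positivity
      linarith
    have h6 := mul_le_mul_of_nonneg_left h5 hg.le
    nlinarith

end PLOx

theorem p_PLO :
    S_PLO := by
  intro κ κb C0 t z x h0 h2 hC ht htz h hff
  have hz' : (0 : ℝ) < z := by nlinarith
  have hz : 0 < z := by exact_mod_cast hz'
  have hg := gg_pos κ z
  have ht0 : 0 < t := by linarith
  unfold Phi
  rcases le_total z x with hx | hx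
  · obtain ⟨a, rfl⟩ := Nat.exists_eq_add_of_le hx
    have e : (((z + a : ℕ) : ℝ) - z) = a := by push_cast; ring
    rw [e]
    have ha : (0 : ℝ) ≤ a := Nat.cast_nonneg a
    have p1 : 0 ≤ κb * (a : ℝ) ^ 2 / (2 * z) := by positivity
    have p2 : 0 ≤ 6 * (a : ℝ) ^ 2 / (z * t) := by positivity
    have p3 : 0 ≤ 1 / t := by positivity
    have p4 : 0 ≤ (256 * C0 + 64) * t * (a : ℝ) ^ 4 / (z : ℝ) ^ 3 := by positivity
    by_cases h4 : 4 * a ≤ z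
    · refine le_trans (mul_le_mul_of_nonneg_left ?_ hg.le) (PLOx.up h0 hz h a h4)
      linarith
    · have h5 : (z : ℝ) ≤ 4 * a := by exact_mod_cast (by omega : z ≤ 4 * a)
      have h6 : (z : ℝ) ^ 3 ≤ (4 * a) ^ 3 := pow_le_pow_left₀ hz'.le h5 3
      have h7 : (a : ℝ) ≤ (256 * C0 + 64) * t * (a : ℝ) ^ 4 / (z : ℝ) ^ 3 := by
        rw [le_div_iff₀ (by positivity)]
        have h8 : (64 : ℝ) ≤ (256 * C0 + 64) * t := by nlinarith
        have h9 : (a : ℝ) * (z : ℝ) ^ 3 ≤ a * (4 * a) ^ 3 := mul_le_mul_of_nonneg_left h6 ha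
        have h10 : 64 * (a : ℝ) ^ 4 ≤ (256 * C0 + 64) * t * (a : ℝ) ^ 4 :=
          mul_le_mul_of_nonneg_right h8 (by positivity)
        nlinarith
      have h11 := ff_mono κ hx
      refine le_trans (mul_nonpos_of_nonneg_of_nonpos hg.le ?_) (by linarith)
      linarith
  · obtain ⟨a, ha'⟩ := Nat.exists_eq_add_of_le hx
    have e : ((x : ℝ) - z) = -(a : ℝ) := by rw [ha']; push_cast; ring
    rw [e, neg_sq, show (-(a : ℝ)) ^ 4 = (a : ℝ) ^ 4 by ring]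
    have ha : (0 : ℝ) ≤ a := Nat.cast_nonneg a
    have p1 : 0 ≤ κb * (a : ℝ) ^ 2 / (2 * z) := by positivity
    have p2 : 0 ≤ 6 * (a : ℝ) ^ 2 / (z * t) := by positivity
    have p3 : 0 ≤ 1 / t := by positivity
    by_cases h4 : 4 * a ≤ z
    · have h5 := PLOx.down h0 h2 hz h a x ha'.symm h4
      have q1 : κb * ((a : ℝ) * (a + 1)) / (2 * z) ≤ κb * (a : ℝ) ^ 2 / (2 * z) + a / z := by
        have e1 : κb * ((a : ℝ) * (a + 1)) / (2 * z) =
            κb * (a : ℝ) ^ 2 / (2 * z) + κb / 2 * (a / z) := by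
          field_simp
        have : κb / 2 * ((a : ℝ) / z) ≤ 1 * (a / z) :=
          mul_le_mul_of_nonneg_right (by linarith) (by positivity)
        linarith
      have q2 : (a : ℝ) / z ≤ (a : ℝ) ^ 2 / (z * t) + 1 / t := by
        have e1 : (a : ℝ) ^ 2 / (z * t) + 1 / t - a / z = ((a : ℝ) ^ 2 + z - a * t) / (z * t) := by
          field_simp
        have : 0 ≤ ((a : ℝ) ^ 2 + z - a * t) / (z * t) :=
          div_nonneg (by nlinarith [sq_nonneg ((a : ℝ) - t), sq_nonneg (a : ℝ)]) (by positivity)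
        linarith
      have q3 : 10 * (a : ℝ) ^ 3 / (z : ℝ) ^ 2 ≤
          5 * ((a : ℝ) ^ 2 / (z * t)) + 5 * (t * (a : ℝ) ^ 4 / (z : ℝ) ^ 3) := by
        have e1 : 5 * ((a : ℝ) ^ 2 / (z * t)) + 5 * (t * (a : ℝ) ^ 4 / (z : ℝ) ^ 3) -
            10 * (a : ℝ) ^ 3 / (z : ℝ) ^ 2 =
            5 * ((a : ℝ) * z - t * (a : ℝ) ^ 2) ^ 2 / ((z : ℝ) ^ 3 * t) := by
          field_simp
          ring
        have : 0 ≤ 5 * ((a : ℝ) * z - t * (a : ℝ) ^ 2) ^ 2 / ((z : ℝ) ^ 3 * t) := by positivity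
        linarith
      have q4 : 5 * (t * (a : ℝ) ^ 4 / (z : ℝ) ^ 3) ≤
          (256 * C0 + 64) * t * (a : ℝ) ^ 4 / (z : ℝ) ^ 3 := by
        have e1 : (256 * C0 + 64) * t * (a : ℝ) ^ 4 / (z : ℝ) ^ 3 =
            (256 * C0 + 64) * (t * (a : ℝ) ^ 4 / (z : ℝ) ^ 3) := by ring
        rw [e1]
        exact mul_le_mul_of_nonneg_right (by linarith) (by positivity)
      have q5 : 6 * (a : ℝ) ^ 2 / (z * t) = 6 * ((a : ℝ) ^ 2 / (z * t)) := by ring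
      have h6 : -(a : ℝ) - κb * (a : ℝ) ^ 2 / (2 * z) + -1 * (6 * (a : ℝ) ^ 2 / (z * t) + 1 / t +
          (256 * C0 + 64) * t * (a : ℝ) ^ 4 / (z : ℝ) ^ 3) ≤
          -((a : ℝ) + κb * (a * (a + 1)) / (2 * z) + 10 * (a : ℝ) ^ 3 / (z : ℝ) ^ 2) := by
        linarith
      have h7 := mul_le_mul_of_nonneg_left h6 hg.le
      linarith
    · have h5 : (z : ℝ) ≤ 4 * a := by exact_mod_cast (by omega : z ≤ 4 * a)
      have h6 : (z : ℝ) ^ 4 ≤ (4 * a) ^ 4 := pow_le_pow_left₀ hz'.le h5 4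
      have h7 : C0 * z * t ≤ (256 * C0 + 64) * t * (a : ℝ) ^ 4 / (z : ℝ) ^ 3 := by
        rw [le_div_iff₀ (by positivity)]
        have h8 : C0 * t * (z : ℝ) ^ 4 ≤ C0 * t * (4 * a) ^ 4 :=
          mul_le_mul_of_nonneg_left h6 (by positivity)
        have h9 : 0 ≤ 64 * t * (a : ℝ) ^ 4 := by positivity
        nlinarith
      have h6 : -(a : ℝ) - κb * (a : ℝ) ^ 2 / (2 * z) + -1 * (6 * (a : ℝ) ^ 2 / (z * t) + 1 / t +
          (256 * C0 + 64) * t * (a : ℝ) ^ 4 / (z : ℝ) ^ 3) ≤ -(C0 * z * t) := by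
        linarith
      have h8 := mul_le_mul_of_nonneg_left h6 hg.le
      have h9 := ff_nonneg κ x
      linarith

end Pool.Agent.P.MP_c7fa75_pr.R2
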