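import Pool.Agent.P.MP_c7fa75_pr.R2.Iface

/-! Step QLO. -/

set_option autoImplicit false

namespace Pool.Agent.P.MP_c7fa75_pr.R2

open MeasureTheory ProbabilityTheory Filter Topology Finset
open scoped ENNReal Classical
open Pool.Agent.P.MP_c7fa75_pr.T

namespace QLOx

theorem phi_nonpos {κ C z t s : ℝ} (hκ : 0 ≤ κ) (hC : 64 ≤ C) (hz : 0 < z) (ht : 1 ≤ t)
    (hs : 2 * z ≤ s) : Phi (-1) κ C z t s ≤ 0 := by
  unfold Phi
  have hs0 : 0 < s := by linarith
  have h1 : 0 ≤ κ * s ^ 2 / (2 * z) := by positivity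
  have h2 : 0 ≤ 6 * s ^ 2 / (z * t) := by positivity
  have h3 : 0 ≤ 1 / t := by positivity
  have h4 : s ≤ C * t * s ^ 4 / z ^ 3 := by
    rw [le_div_iff₀ (by positivity)]
    have h5 : z ^ 3 ≤ s ^ 3 := pow_le_pow_left₀ hz.le (by linarith) 3
    have h6 : 1 ≤ C * t := by nlinarith
    have h7 : s * z ^ 3 ≤ s ^ 4 := by nlinarith
    have h8 : 0 ≤ s ^ 4 := by positivity
    nlinarith
  linarith

theorem arith {E1 E2 E4 m κ C z t B : ℝ} (hκ : 0 ≤ κ) (hκ2 : κ ≤ 2) (hC : 0 ≤ C) (hz : 0 < z)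
    (ht : 1 ≤ t) (htz : t ^ 2 ≤ z) (h1 : m ≤ E1) (h2 : E2 ≤ 2 * z + 2 * z / t + 4 * t * B ^ 2)
    (h4 : E4 ≤ 2560 * z ^ 2 + 8 * B ^ 2 * z ^ 2) :
    m - κ - (100 + 3000 * C) * (1 / t + t * (B ^ 2 / z)) ≤
      E1 - κ / (2 * z) * E2 - (6 / (z * t) * E2 + 1 / t + C * t / z ^ 3 * E4) := by
  have ht0 : 0 < t := by linarith
  set u := 1 / t with hu
  set v := t * (B ^ 2 / z) with hv
  have hu0 : 0 < u := by positivity
  have hu1 : u ≤ 1 := by rw [hu, div_le_one ht0]; exact ht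
  have hv0 : 0 ≤ v := by positivity
  have a1 : κ / (2 * z) * E2 ≤ κ + 2 * u + 4 * v := by
    calc κ / (2 * z) * E2 ≤ κ / (2 * z) * (2 * z + 2 * z / t + 4 * t * B ^ 2) :=
          mul_le_mul_of_nonneg_left h2 (by positivity)
      _ = κ + κ * u + 2 * κ * v := by rw [hu, hv]; field_simp; ring
      _ ≤ _ := by nlinarith
  have a2 : 6 / (z * t) * E2 ≤ 24 * u + 24 * v := by
    calc 6 / (z * t) * E2 ≤ 6 / (z * t) * (2 * z + 2 * z / t + 4 * t * B ^ 2) :=
          mul_le_mul_of_nonneg_left h2 (by positivity)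
      _ = 12 * u + 12 * (u * u) + 24 * (u * v) := by rw [hu, hv]; field_simp; ring
      _ ≤ _ := by nlinarith
  have a3 : C * t / z ^ 3 * E4 ≤ 2560 * C * u + 8 * C * v := by
    have h5 : t / z ≤ u := by
      rw [hu, div_le_div_iff₀ hz ht0]; nlinarith
    calc C * t / z ^ 3 * E4 ≤ C * t / z ^ 3 * (2560 * z ^ 2 + 8 * B ^ 2 * z ^ 2) :=
          mul_le_mul_of_nonneg_left h4 (by positivity)
      _ = 2560 * C * (t / z) + 8 * C * v := by rw [hv]; field_simp
      _ ≤ _ := by nlinarith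
  nlinarith [mul_nonneg hC hu0.le, mul_nonneg hC hv0]

end QLOx

theorem p_QLO (hSMOM : S_SMOM) (hPLO : S_PLO) :
    S_QLO := by
  intro C0 hC0
  refine ⟨100 + 3000 * (256 * C0 + 64), by positivity,
    fun w hw A hA k z t κb κ hk hkz ht htz hκ0 hκ2 hκ hf => ?_⟩
  have hA0 : 0 ≤ A := by simpa using hA 0
  have hk' : (1 : ℝ) ≤ k := by exact_mod_cast hk
  have hz : (0 : ℝ) < z := by exact_mod_cast (show 0 < z by omega)
  have hg := gg_pos κ z
  have ht0 : 0 < t := by linarith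
  have hwin : 0 ≤ win (fun i => |2 * w i - 1|) z := sum_nonneg fun _ _ => abs_nonneg _
  set B := (k : ℝ) + A with hB
  have hB1 : 1 ≤ B := by linarith
  rcases le_or_gt B z with hBz | hBz
  · have hmin : min (B ^ 2 / z) B = B ^ 2 / z := by
      refine min_eq_left ?_
      rw [div_le_iff₀ hz]; nlinarith
    rw [hmin]
    obtain ⟨s1, s2, -, s4⟩ := hSMOM w hw A hA k z t hk hkz ht htz hBz
    set C1 := 256 * C0 + 64 with hC1
    have key : Ex w (z + 1 - k) (4 * z) (fun a b => ff κ z + gg κ z *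
        ((((a : ℝ) - b + 1 - k) - κb / (2 * z) * ((a : ℝ) - b + 1 - k) ^ 2) -
          ((6 / (z * t) * ((a : ℝ) - b + 1 - k) ^ 2 + 1 / t) +
            C1 * t / (z : ℝ) ^ 3 * ((a : ℝ) - b + 1 - k) ^ 4))) ≤
        Ex w (z + 1 - k) (4 * z) (fun a _ => ff κ a) := by
      refine Ex_mono _ _ _ fun a b hr => ?_
      have e : (((a : ℝ) - b + 1 - k) - κb / (2 * z) * ((a : ℝ) - b + 1 - k) ^ 2) -
          ((6 / (z * t) * ((a : ℝ) - b + 1 - k) ^ 2 + 1 / t) +
            C1 * t / (z : ℝ) ^ 3 * ((a : ℝ) - b + 1 - k) ^ 4) =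
          Phi (-1) κb C1 z t ((a : ℝ) - b + 1 - k) := by
        unfold Phi; ring
      rw [e]
      obtain ⟨h1, h2, h3⟩ := hr
      rcases h1.eq_or_lt with h1 | h1
      · have e2 : (a : ℝ) - b + 1 - k = a - z := by
          have : b + k = z + 1 := by omega
          have : (b : ℝ) + k = z + 1 := by exact_mod_cast this
          linarith
        rw [e2]
        have := hPLO κ κb C0 t z a hκ0 hκ2 hC0 ht htz hκ hf
        linarith
      · have h4 := h3 h1
        have h5 : ff κ z ≤ ff κ a := ff_mono κ (by omega)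
        have h6 : 2 * (z : ℝ) ≤ (a : ℝ) - b + 1 - k := by
          have : 2 * z + b + k ≤ a + 1 := by omega
          have : 2 * (z : ℝ) + b + k ≤ a + 1 := by exact_mod_cast this
          linarith
        have h7 := QLOx.phi_nonpos hκ0 (show 64 ≤ C1 by linarith) hz ht h6
        nlinarith
    refine le_trans ?_ key
    rw [Ex_add, Ex_const, Ex_mul, Ex_sub, Ex_sub, Ex_add, Ex_add, Ex_mul, Ex_mul, Ex_mul, Ex_const]
    have h1 := (abs_le.1 s1).1
    have := QLOx.arith (m := 1 - k + psum w z - win (fun i => |2 * w i - 1|) z) (B := B)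
      (E1 := Ex w (z + 1 - k) (4 * z) (fun a b => (a : ℝ) - b + 1 - k)) hκ0 hκ2
      (show 0 ≤ C1 by positivity) hz ht htz (by linarith) s2 s4
    have h2 := mul_le_mul_of_nonneg_left this hg.le
    linarith
  · have hmin : min (B ^ 2 / z) B = B := by
      refine min_eq_right ?_
      rw [le_div_iff₀ hz]; nlinarith
    rw [hmin]
    have h0 : 0 ≤ Ex w (z + 1 - k) (4 * z) (fun a _ => ff κ a) := by
      have := Ex_mono w (z + 1 - k) (4 * z) (V := fun _ _ => 0) (V' := fun a _ => ff κ a)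
        (fun a _ _ => ff_nonneg κ a)
      rwa [Ex_const] at this
    refine le_trans ?_ h0
    have hp : psum w z ≤ A := by
      refine le_trans ?_ (hA z)
      exact sum_le_sum fun i _ => le_abs_self _
    have h1 : C0 * z * t * gg κ z ≤ C0 * B * t * gg κ z := by gcongr
    have h2 : 0 < 1 / t := by positivity
    have h3 : 1 - k + psum w z - κb - win (fun i => |2 * w i - 1|) z -
        (100 + 3000 * (256 * C0 + 64)) * (1 / t + t * B) ≤ - (C0 * B * t) := by
      have h4 : B ≤ t * B := by nlinarith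
      have h5 : 0 ≤ C0 * (t * B) := by positivity
      have h6 : 0 ≤ C0 * (1 / t) := by positivity
      nlinarith
    have h4 := mul_le_mul_of_nonneg_left h3 hg.le
    linarith

end Pool.Agent.P.MP_c7fa75_pr.R2
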