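import Pool.Agent.P.MP_c7fa75_pr.R2.Iface

/-! Step QUP. -/

set_option autoImplicit false

namespace Pool.Agent.P.MP_c7fa75_pr.R2

open MeasureTheory ProbabilityTheory Filter Topology Finset
open scoped ENNReal Classical
open Pool.Agent.P.MP_c7fa75_pr.T

namespace QUPx

theorem fin {z t κb B E1 E2 E4 m : ℝ} (ht : 1 ≤ t) (htz : t ^ 2 ≤ z) (h0 : 0 ≤ κb) (h2 : κb ≤ 2)
    (e1 : E1 ≤ m) (e2 : E2 ≤ 2 * z + 2 * z / t + 4 * t * B ^ 2)
    (e3 : 2 * z - 323 * z / t - 4 * t * B ^ 2 ≤ E2) (e4 : E4 ≤ 2560 * z ^ 2 + 8 * B ^ 2 * z ^ 2) :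
    E1 + (-(κb / (2 * z)) + 6 / (z * t)) * E2 + 1 / t + (64 * t / z ^ 3 + 3 / (16 * z ^ 3)) * E4 ≤
      m - κb + 1000000 * (1 / t + t * (B ^ 2 / z)) := by
  have t0 : 0 < t := by linarith
  have z0 : 0 < z := by nlinarith
  have hu : 0 < 1 / t := by positivity
  have hq : 0 ≤ B ^ 2 / z := by positivity
  have hq' : B ^ 2 / z ≤ t * (B ^ 2 / z) := le_mul_of_one_le_left hq ht
  have a1 : κb / (2 * z) * (2 * z - 323 * z / t - 4 * t * B ^ 2) ≤ κb / (2 * z) * E2 :=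
    mul_le_mul_of_nonneg_left e3 (by positivity)
  have a2 : κb / (2 * z) * (2 * z - 323 * z / t - 4 * t * B ^ 2) =
      κb - κb * (323 / 2 * (1 / t) + 2 * (t * (B ^ 2 / z))) := by field_simp; ring
  have a3 : κb * (323 / 2 * (1 / t) + 2 * (t * (B ^ 2 / z))) ≤
      2 * (323 / 2 * (1 / t) + 2 * (t * (B ^ 2 / z))) :=
    mul_le_mul_of_nonneg_right h2 (by positivity)
  have b1 : 6 / (z * t) * E2 ≤ 6 / (z * t) * (2 * z + 2 * z / t + 4 * t * B ^ 2) :=
    mul_le_mul_of_nonneg_left e2 (by positivity)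
  have b2 : 6 / (z * t) * (2 * z + 2 * z / t + 4 * t * B ^ 2) =
      12 * (1 / t) + 12 * (1 / t * (1 / t)) + 24 * (B ^ 2 / z) := by field_simp; ring
  have b3 : 1 / t * (1 / t) ≤ 1 / t :=
    mul_le_of_le_one_left hu.le (by rw [div_le_one t0]; exact ht)
  have c1 : (64 * t / z ^ 3 + 3 / (16 * z ^ 3)) * E4 ≤
      (64 * t / z ^ 3 + 3 / (16 * z ^ 3)) * (2560 * z ^ 2 + 8 * B ^ 2 * z ^ 2) :=
    mul_le_mul_of_nonneg_left e4 (by positivity)
  have c2 : (64 * t / z ^ 3 + 3 / (16 * z ^ 3)) * (2560 * z ^ 2 + 8 * B ^ 2 * z ^ 2) =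
      163840 * (t / z) + 480 * (1 / z) + 512 * (t * (B ^ 2 / z)) + 3 / 2 * (B ^ 2 / z) := by
    field_simp; ring
  have c3 : t / z ≤ 1 / t := by
    rw [div_le_div_iff₀ z0 t0]; nlinarith
  have c4 : 1 / z ≤ 1 / t := one_div_le_one_div_of_le t0 (by nlinarith)
  nlinarith

theorem big {z t κb s : ℝ} (z0 : 0 < z) (ht : 1 ≤ t) (h2 : κb ≤ 2) (hs : 2 * z ≤ s) :
    3 * z ≤ Phi 1 κb 64 z t s ∧ 3 * z ≤ 3 / (16 * z ^ 3) * s ^ 4 := by
  have t0 : 0 < t := by linarith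
  have s0 : 0 < s := by linarith
  obtain ⟨r, rfl⟩ : ∃ r, s = r * z := ⟨s / z, by field_simp⟩
  have hr : 2 ≤ r := le_of_mul_le_mul_right hs z0
  have r2 : 4 ≤ r ^ 2 := by nlinarith
  have r4 : 4 * r ^ 2 ≤ r ^ 4 := by nlinarith
  constructor
  · have e : Phi 1 κb 64 z t (r * z) = z * (r - κb * r ^ 2 / 2 + 64 * t * r ^ 4) +
        (6 * (r * z) ^ 2 / (z * t) + 1 / t) := by
      unfold Phi; field_simp; ring
    have p : 0 ≤ 6 * (r * z) ^ 2 / (z * t) + 1 / t := by positivity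
    have q1 : κb * r ^ 2 ≤ 2 * r ^ 2 := mul_le_mul_of_nonneg_right h2 (by positivity)
    have q2 : r ^ 4 ≤ t * r ^ 4 := le_mul_of_one_le_left (by positivity) ht
    have q : 3 ≤ r - κb * r ^ 2 / 2 + 64 * t * r ^ 4 := by nlinarith
    rw [e]
    nlinarith
  · have e : 3 / (16 * z ^ 3) * (r * z) ^ 4 = z * (3 / 16 * r ^ 4) := by field_simp
    rw [e]
    nlinarith

end QUPx

theorem p_QUP (hMOM : S_MOM) (hSMOM : S_SMOM) (hPUP : S_PUP) :
    S_QUP := by
  refine ⟨1000000, by norm_num, ?_⟩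
  intro w hw A hA k z N t κb κ hk hkz hN ht htz hκ h0 h2 hκb
  have A0 : 0 ≤ A := by simpa using hA 0
  have hD : ∀ n, |psum w n| ≤ A := fun n => (abs_psum_le w n).trans (hA n)
  have k1 : (1 : ℝ) ≤ k := by exact_mod_cast hk
  have kz : 2 * (k : ℝ) ≤ z := by exact_mod_cast hkz
  have z0 : (0 : ℝ) < z := by linarith
  have t0 : 0 < t := by linarith
  have hy : ((z + 1 - k : ℕ) : ℝ) = z + 1 - k := by
    rw [Nat.cast_sub (by omega)]; push_cast; ring
  have g0 := gg_pos κ z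
  have hP := fun x => hPUP κ κb t z x hκ h0 h2 ht htz hκb
  have w0 : 0 ≤ win (fun i => |2 * w i - 1|) z := sum_nonneg fun _ _ => abs_nonneg _
  rcases le_total (z : ℝ) (k + A) with hB | hB
  · have m1 : min (((k : ℝ) + A) ^ 2 / z) (k + A) = k + A := by
      refine min_eq_right ?_
      rw [le_div_iff₀ z0]
      nlinarith
    rw [m1]
    have h1 : Ex w (z + 1 - k) N (fun a _ => ff κ a) ≤ Ex w (z + 1 - k) N
        (fun a b => (ff κ z + gg κ z * (1 - k + A)) + gg κ z * mg w a b) := by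
      refine Ex_mono w _ _ fun a b hr => ?_
      have hb : (b : ℝ) ≤ z + 1 - k := by rw [← hy]; exact_mod_cast hr.1
      have := (abs_le.1 (hD (a + b))).2
      have h3 : gg κ z * ((a : ℝ) - z) ≤ gg κ z * (1 - k + A + mg w a b) :=
        mul_le_mul_of_nonneg_left (by unfold mg; linarith) g0.le
      have := (hP a).2
      linarith
    rw [Ex_add, Ex_const, Ex_mul, (hMOM w hw A hA _ _).1] at h1
    have h4 : (k : ℝ) + A ≤ t * (k + A) := le_mul_of_one_le_left (by linarith) ht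
    have h5 : 0 < 1 / t := by positivity
    have h6 := (abs_le.1 (hD z)).1
    have h7 : gg κ z * (1 - k + A) ≤ gg κ z * (1 - k + psum w z - κb +
        win (fun i => |2 * w i - 1|) z + 1000000 * (1 / t + t * (k + A))) :=
      mul_le_mul_of_nonneg_left (by linarith) g0.le
    linarith
  · have m1 : min (((k : ℝ) + A) ^ 2 / z) (k + A) = (k + A) ^ 2 / z := by
      refine min_eq_left ?_
      rw [div_le_iff₀ z0]
      nlinarith
    rw [m1]
    obtain ⟨s1, s2, s3, s4⟩ := hSMOM w hw A hA k z t hk hkz ht htz hB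
    set c2 : ℝ := -(κb / (2 * z)) + 6 / (z * t) with hc2
    set c4 : ℝ := 64 * t / (z : ℝ) ^ 3 + 3 / (16 * (z : ℝ) ^ 3) with hc4
    set V1 : ℕ → ℕ → ℝ := fun a b => ff κ z + gg κ z * ((((((a : ℝ) - b + 1 - k) +
      c2 * ((a : ℝ) - b + 1 - k) ^ 2) + 1 / t) + c4 * ((a : ℝ) - b + 1 - k) ^ 4) - mg w a b)
      with hV1
    set V2 : ℕ → ℕ → ℝ := fun a b => gg κ z * mg w a b with hV2
    have hPhi : ∀ s : ℝ, s + c2 * s ^ 2 + 1 / t + c4 * s ^ 4 =
        Phi 1 κb 64 z t s + 3 / (16 * (z : ℝ) ^ 3) * s ^ 4 := fun s => by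
      unfold Phi; rw [hc2, hc4]; ring
    have pt : ∀ e : ℕ → Bool, ff κ (Rr e (tau e (z + 1 - k) N)) ≤
        V1 (Rr e (tau e (z + 1 - k) (4 * z))) (Ll e (tau e (z + 1 - k) (4 * z))) +
        V2 (Rr e (tau e (z + 1 - k) N)) (Ll e (tau e (z + 1 - k) N)) := by
      intro e
      have r1 := reach_tau e (z + 1 - k) (4 * z)
      have r2 := reach_tau e (z + 1 - k) N
      simp only [hV1, hV2, hPhi]
      rcases r1.1.eq_or_lt with hb | hb
      · rw [tau_frozen hb hN, hb, hy]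
        have e1 : (Rr e (tau e (z + 1 - k) (4 * z)) : ℝ) - (z + 1 - k) + 1 - k =
            Rr e (tau e (z + 1 - k) (4 * z)) - z := by ring
        rw [e1]
        have := (hP (Rr e (tau e (z + 1 - k) (4 * z)))).1
        have h3 : 0 ≤ gg κ z * (3 / (16 * (z : ℝ) ^ 3) *
            ((Rr e (tau e (z + 1 - k) (4 * z)) : ℝ) - z) ^ 4) := by positivity
        linarith
      · have hab := r1.2.2 hb
        generalize Rr e (tau e (z + 1 - k) (4 * z)) = a at *
        generalize Ll e (tau e (z + 1 - k) (4 * z)) = b at *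
        generalize Rr e (tau e (z + 1 - k) N) = a' at *
        generalize Ll e (tau e (z + 1 - k) N) = b' at *
        have q1 : (a : ℝ) + b = 4 * z := by exact_mod_cast hab
        have q2 : (b : ℝ) + k ≤ z := by exact_mod_cast (show b + k ≤ z by omega)
        have q3 : (b' : ℝ) ≤ z + 1 - k := by rw [← hy]; exact_mod_cast r2.1
        have q4 : (0 : ℝ) ≤ b := Nat.cast_nonneg b
        obtain ⟨p1, p2⟩ := QUPx.big (s := (a : ℝ) - b + 1 - k) z0 ht h2 (by linarith)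
        have d1 := (abs_le.1 (hD (a + b))).1
        have d2 := (abs_le.1 (hD (a' + b'))).2
        have h3 : gg κ z * ((a' : ℝ) - z) ≤ gg κ z * (Phi 1 κb 64 z t ((a : ℝ) - b + 1 - k) +
            3 / (16 * (z : ℝ) ^ 3) * ((a : ℝ) - b + 1 - k) ^ 4 - mg w a b + mg w a' b') :=
          mul_le_mul_of_nonneg_left (by unfold mg; linarith) g0.le
        have := (hP a').2
        linarith
    have h1 : Ex w (z + 1 - k) N (fun a _ => ff κ a) ≤
        Ex w (z + 1 - k) (4 * z) V1 + Ex w (z + 1 - k) N V2 := by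
      unfold Ex
      rw [← integral_add (intg w _ _ V1) (intg w _ _ V2)]
      exact integral_mono (intg w _ N (fun a _ => ff κ a)) ((intg w _ _ V1).add (intg w _ _ V2))
        fun u => pt _
    rw [hV1, hV2, Ex_add, Ex_const, Ex_mul, Ex_mul, Ex_sub, Ex_add, Ex_add, Ex_add, Ex_mul, Ex_mul,
      Ex_const, (hMOM w hw A hA _ N).1, (hMOM w hw A hA _ (4 * z)).1] at h1
    have s5 := sub_le_iff_le_add'.1 (abs_le.1 s1).2
    have h5 := QUPx.fin ht htz h0 h2 s5 s2 s3 s4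
    have h6 := mul_le_mul_of_nonneg_left h5 g0.le
    linarith

end Pool.Agent.P.MP_c7fa75_pr.R2
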