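import Pool.Agent.P.MP_c7fa75_pr.R2.Iface

/-! Step SEQ. -/

set_option autoImplicit false

namespace Pool.Agent.P.MP_c7fa75_pr.R2

open MeasureTheory ProbabilityTheory Filter Topology Finset
open scoped ENNReal Classical
open Pool.Agent.P.MP_c7fa75_pr.T

namespace SEQx

theorem cmp {a a' b : ℕ → ℝ} (hb : ∀ n, 0 ≤ b n)
    (hs : Summable (fun n : ℕ => b (n + 1) / ((n : ℝ) + 1)))
    (hev : ∀ᶠ n in atTop, a n - b n ≤ a' n) (h : Summable (gg a)) : Summable (gg a') := by
  obtain ⟨N, hN⟩ := eventually_atTop.1 hev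
  set d : ℕ → ℝ := fun n => (a (n + 1) - a' (n + 1)) / ((n : ℝ) + 1) with hd
  set β : ℕ → ℝ := fun n => b (n + 1) / ((n : ℝ) + 1) with hβ
  set e : ℕ → ℝ := fun n => max 0 (d n - β n) with he
  have hp : ∀ n : ℕ, (0 : ℝ) < (n : ℝ) + 1 := fun n => by positivity
  have hes : Summable e := by
    refine summable_of_ne_finset_zero (s := range N) fun n hn => ?_
    have h1 : N ≤ n + 1 := by
      have := Finset.mem_range.not.1 hn
      omega
    have h2 : d n ≤ β n := div_le_div_of_nonneg_right (by linarith [hN _ h1]) (hp n).le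
    exact max_eq_left (by linarith)
  have hsum : Summable (fun n => β n + e n) := hs.add hes
  have hK : ∀ m, ∑ n ∈ range m, d n ≤ ∑' n, (β n + e n) := by
    intro m
    refine le_trans (Finset.sum_le_sum fun n _ => ?_) (hsum.sum_le_tsum (range m) fun n _ => ?_)
    · have h3 : d n - β n ≤ e n := le_max_right _ _
      linarith
    · exact add_nonneg (div_nonneg (hb _) (hp n).le) (le_max_left _ _)
  refine Summable.of_nonneg_of_le (fun m => (gg_pos _ _).le) (fun m => ?_)
    (h.mul_left (Real.exp (∑' n, (β n + e n))))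
  unfold gg
  rw [← Real.exp_add]
  refine Real.exp_le_exp.2 ?_
  have h4 : ∑ n ∈ range m, d n =
      ∑ n ∈ range m, a (n + 1) / ((n : ℝ) + 1) - ∑ n ∈ range m, a' (n + 1) / ((n : ℝ) + 1) := by
    rw [← Finset.sum_sub_distrib]
    exact Finset.sum_congr rfl fun n _ => sub_div _ _ _
  linarith [hK m]

theorem cmp0 {a a' : ℕ → ℝ} (hev : ∀ᶠ n in atTop, a n ≤ a' n) (h : Summable (gg a)) :
    Summable (gg a') :=
  cmp (b := fun _ => 0) (fun _ => le_rfl) (by simp)
    (hev.mono fun n hn => by simpa using hn) h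

theorem gg_const (c : ℝ) (m : ℕ) : gg (fun _ => c) m = Real.exp (-(c * (harmonic m : ℝ))) := by
  unfold gg harmonic
  congr 2
  push_cast
  rw [Finset.mul_sum]
  exact Finset.sum_congr rfl fun n _ => div_eq_mul_inv _ _

theorem const_yes {c : ℝ} (hc : 1 < c) : Summable (gg (fun _ => c)) := by
  have h1 : Summable (fun n : ℕ => ((n + 1 : ℕ) : ℝ) ^ (-c)) :=
    (summable_nat_add_iff 1).2 (Real.summable_nat_rpow.2 (by linarith))
  refine Summable.of_nonneg_of_le (fun m => (gg_pos _ _).le) (fun m => ?_) h1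
  have h2 : (0 : ℝ) < ((m + 1 : ℕ) : ℝ) := by positivity
  rw [gg_const, Real.rpow_def_of_pos h2]
  refine Real.exp_le_exp.2 ?_
  have h3 := log_add_one_le_harmonic m
  nlinarith

theorem const_no : ¬ Summable (gg (fun _ => (1 : ℝ))) := by
  intro h
  refine Real.not_summable_one_div_natCast ?_
  refine Summable.of_nonneg_of_le (fun m => by positivity) (fun m => ?_) (h.mul_left (Real.exp 1))
  rcases Nat.eq_zero_or_pos m with h0 | h0
  · subst h0
    simp only [Nat.cast_zero, div_zero]
    exact (mul_pos (Real.exp_pos _) (gg_pos _ _)).le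
  · have h2 : (0 : ℝ) < (m : ℝ) := by exact_mod_cast h0
    rw [gg_const, ← Real.exp_add, one_div, ← Real.exp_log (inv_pos.2 h2), Real.log_inv]
    refine Real.exp_le_exp.2 ?_
    have h3 := harmonic_le_one_add_log m
    linarith

end SEQx

open SEQx in
theorem p_SEQ :
    S_SEQ := by
  intro a sl L c ha hsl h0 hs hc
  have hsub : Tendsto (fun n => a n - sl n) atTop (𝓝 L) := by simpa using ha.sub h0
  have hadd : Tendsto (fun n => a n + sl n) atTop (𝓝 L) := by simpa using ha.add h0
  refine ⟨fun h => ⟨?_, ?_⟩, fun h => ?_⟩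
  · by_contra hL
    exact const_no (cmp0 ((ha.eventually (gt_mem_nhds (not_le.1 hL))).mono fun n hn => hn.le) h)
  · rcases lt_or_ge L c with hL | hL
    · refine cmp hsl hs ((hsub.eventually (gt_mem_nhds hL)).mono fun n hn => ?_) h
      rw [min_eq_right hn.le]
      exact le_max_right _ _
    · have h1 : (1 + c) / 2 < L := by linarith
      refine cmp0 ((hsub.eventually (lt_mem_nhds h1)).mono fun n hn => ?_)
        (const_yes (c := (1 + c) / 2) (by linarith))
      exact le_max_of_le_right (le_min (by linarith) hn.le)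
  · have hL : L ≤ 1 := by
      by_contra hL
      have h1 : (1 + L) / 2 < L := by linarith [not_le.1 hL]
      exact h (cmp0 ((ha.eventually (lt_mem_nhds h1)).mono fun n hn => hn.le)
        (const_yes (c := (1 + L) / 2) (by linarith [not_le.1 hL])))
    refine ⟨hL, fun hk => ?_⟩
    rcases hL.lt_or_eq with h1 | h1
    · refine const_no (cmp0 ((hadd.eventually (gt_mem_nhds h1)).mono fun n hn => ?_) hk)
      exact max_le zero_le_one hn.le
    · have h2 : (0 : ℝ) < L := by linarith
      refine h (cmp hsl hs ((hadd.eventually (lt_mem_nhds h2)).mono fun n hn => ?_) hk)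
      rw [max_eq_right hn.le]
      linarith

end Pool.Agent.P.MP_c7fa75_pr.R2
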