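import Pool.Agent.P.MP_c7fa75_pr.R2.Iface

/-! Step SLACK. -/

set_option autoImplicit false

namespace Pool.Agent.P.MP_c7fa75_pr.R2

open MeasureTheory ProbabilityTheory Filter Topology Finset
open scoped ENNReal Classical
open Pool.Agent.P.MP_c7fa75_pr.T

namespace SLACKx

/-- The sum of `α` over the enlarged window of `n`. -/
noncomputable def W (α : ℕ → ℝ) (n : ℕ) : ℝ :=
  ∑ i ∈ (range (6 * n)).filter (fun i => n ≤ 3 * i), α i

theorem W_nonneg {α : ℕ → ℝ} (h : ∀ i, 0 ≤ α i) (n : ℕ) : 0 ≤ W α n :=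
  sum_nonneg fun i _ => h i

theorem W_le {α : ℕ → ℝ} (h : ∀ i, 0 ≤ α i) (hs : Summable α) (n : ℕ) :
    W α n ≤ ∑' i, α i - ∑ i ∈ range (n / 3), α i := by
  have hd : Disjoint ((range (6 * n)).filter (fun i => n ≤ 3 * i)) (range (n / 3)) := by
    rw [disjoint_left]
    intro i hi hi'
    rw [mem_filter] at hi
    rw [mem_range] at hi'
    omega
  have h1 := hs.sum_le_tsum
    ((range (6 * n)).filter (fun i => n ≤ 3 * i) ∪ range (n / 3)) (fun i _ => h i)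
  rw [sum_union hd] at h1
  unfold W
  linarith

theorem W_tendsto {α : ℕ → ℝ} (h : ∀ i, 0 ≤ α i) (hs : Summable α) :
    Tendsto (W α) atTop (𝓝 0) := by
  have h3 : Tendsto (fun n : ℕ => n / 3) atTop atTop := by
    refine tendsto_atTop_atTop.2 fun b => ⟨3 * b, fun a ha => ?_⟩
    omega
  have h1 : Tendsto (fun n : ℕ => ∑ i ∈ range (n / 3), α i) atTop (𝓝 (∑' i, α i)) :=
    hs.hasSum.tendsto_sum_nat.comp h3
  have h2 : Tendsto (fun n : ℕ => ∑' i, α i - ∑ i ∈ range (n / 3), α i) atTop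
      (𝓝 (∑' i, α i - ∑' i, α i)) := tendsto_const_nhds.sub h1
  rw [sub_self] at h2
  exact squeeze_zero (W_nonneg h) (W_le h hs) h2

theorem col_le {a : ℝ} (ha : 0 ≤ a) (i M : ℕ) :
    ∑ n ∈ range M, (if n + 1 ≤ 3 * i ∧ i < 6 * (n + 1) then a / ((n : ℝ) + 1) else 0) ≤ 18 * a := by
  rcases Nat.eq_zero_or_pos i with rfl | hi
  · have : ∀ n ∈ range M,
        (if n + 1 ≤ 3 * 0 ∧ 0 < 6 * (n + 1) then a / ((n : ℝ) + 1) else 0) = 0 := by
      intro n _
      rw [if_neg]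
      omega
    rw [sum_eq_zero this]
    positivity
  have hi' : (0 : ℝ) < i := by exact_mod_cast hi
  have h1 : ∀ n ∈ range M,
      (if n + 1 ≤ 3 * i ∧ i < 6 * (n + 1) then a / ((n : ℝ) + 1) else 0) ≤
        (if n < 3 * i then 6 * a / i else 0) := by
    intro n _
    by_cases hc : n + 1 ≤ 3 * i ∧ i < 6 * (n + 1)
    · rw [if_pos hc, if_pos (by omega)]
      have h6 : (i : ℝ) ≤ 6 * ((n : ℝ) + 1) := by exact_mod_cast hc.2.le
      rw [div_le_div_iff₀ (by positivity) hi']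
      nlinarith [mul_le_mul_of_nonneg_left h6 ha]
    · rw [if_neg hc]
      split_ifs
      · positivity
      · exact le_rfl
  refine (sum_le_sum h1).trans ?_
  rw [← sum_filter, sum_const, nsmul_eq_mul]
  have hc : (((range M).filter (fun n => n < 3 * i)).card : ℝ) ≤ 3 * i := by
    have : ((range M).filter (fun n => n < 3 * i)).card ≤ (range (3 * i)).card :=
      card_le_card fun n hn => mem_range.2 (mem_filter.1 hn).2
    rw [card_range] at this
    exact_mod_cast this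
  calc (((range M).filter (fun n => n < 3 * i)).card : ℝ) * (6 * a / i)
      ≤ 3 * i * (6 * a / i) := mul_le_mul_of_nonneg_right hc (by positivity)
    _ = 18 * a := by field_simp; ring

theorem W_summable {α : ℕ → ℝ} (h : ∀ i, 0 ≤ α i) (hs : Summable α) :
    Summable (fun n : ℕ => W α (n + 1) / ((n : ℝ) + 1)) := by
  refine summable_of_sum_range_le (c := 18 * ∑' i, α i)
    (fun n => div_nonneg (W_nonneg h _) (by positivity)) fun M => ?_
  have h1 : ∀ n ∈ range M, W α (n + 1) / ((n : ℝ) + 1) =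
      ∑ i ∈ range (6 * M),
        (if n + 1 ≤ 3 * i ∧ i < 6 * (n + 1) then α i / ((n : ℝ) + 1) else 0) := by
    intro n hn
    rw [mem_range] at hn
    rw [← sum_filter, W, sum_div]
    refine sum_congr ?_ fun _ _ => rfl
    ext i
    simp only [mem_filter, mem_range]
    omega
  rw [sum_congr rfl h1, sum_comm]
  calc ∑ i ∈ range (6 * M), ∑ n ∈ range M,
        (if n + 1 ≤ 3 * i ∧ i < 6 * (n + 1) then α i / ((n : ℝ) + 1) else 0)
      ≤ ∑ i ∈ range (6 * M), 18 * α i := sum_le_sum fun i _ => col_le (h i) i M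
    _ = 18 * ∑ i ∈ range (6 * M), α i := by rw [mul_sum]
    _ ≤ 18 * ∑' i, α i :=
      mul_le_mul_of_nonneg_left (hs.sum_le_tsum _ fun i _ => h i) (by norm_num)

theorem pow_summable {γ : ℝ} (hγ : 0 < γ) (C : ℝ) :
    Summable (fun n : ℕ => 2 * C / (((n + 1 : ℕ) : ℝ)) ^ γ / ((n : ℝ) + 1)) := by
  have h1 : Summable (fun n : ℕ => 1 / ((n : ℝ)) ^ (γ + 1)) :=
    Real.summable_one_div_nat_rpow.2 (by linarith)
  have h2 := ((summable_nat_add_iff 1).2 h1).mul_left (2 * C)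
  refine h2.congr fun n => ?_
  have hn : (0 : ℝ) < ((n + 1 : ℕ) : ℝ) := by positivity
  rw [Real.rpow_add hn, Real.rpow_one]
  have hp : (0 : ℝ) < ((n + 1 : ℕ) : ℝ) ^ γ := Real.rpow_pos_of_pos hn γ
  push_cast at hp hn ⊢
  field_simp

theorem win_le {α : ℕ → ℝ} (h : ∀ i, 0 ≤ α i) {z n : ℕ} (hz : 6 ≤ z) (h1 : 3 * z ≤ 4 * n)
    (h2 : 4 * n ≤ 5 * z) : win α z ≤ W α n := by
  unfold win W
  refine sum_le_sum_of_subset_of_nonneg (fun i hi => ?_) fun i _ _ => h i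
  rw [mem_Ico] at hi
  rw [mem_filter, mem_range]
  omega

theorem pow_le {γ C : ℝ} (hγ : 0 < γ) (hγ1 : γ ≤ 1) (hC : 0 ≤ C) {z n : ℕ} (hz : 6 ≤ z)
    (h1 : 3 * z ≤ 4 * n) (h2 : 4 * n ≤ 5 * z) : C / (z : ℝ) ^ γ ≤ 2 * C / (n : ℝ) ^ γ := by
  have hz0 : (0 : ℝ) < z := by exact_mod_cast (by omega : 0 < z)
  have hn0 : (0 : ℝ) < n := by exact_mod_cast (by omega : 0 < n)
  have hnz : (n : ℝ) ≤ 2 * z := by exact_mod_cast (by omega : n ≤ 2 * z)
  have ha : (n : ℝ) ^ γ ≤ (2 * (z : ℝ)) ^ γ := Real.rpow_le_rpow hn0.le hnz hγ.le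
  rw [Real.mul_rpow (by norm_num) hz0.le] at ha
  have hb : (2 : ℝ) ^ γ ≤ 2 := by
    have := Real.rpow_le_rpow_of_exponent_le (by norm_num : (1 : ℝ) ≤ 2) hγ1
    rwa [Real.rpow_one] at this
  have hpz : (0 : ℝ) < (z : ℝ) ^ γ := Real.rpow_pos_of_pos hz0 γ
  have hpn : (0 : ℝ) < (n : ℝ) ^ γ := Real.rpow_pos_of_pos hn0 γ
  have hc : (n : ℝ) ^ γ ≤ 2 * (z : ℝ) ^ γ :=
    ha.trans (mul_le_mul_of_nonneg_right hb hpz.le)
  rw [div_le_div_iff₀ hpz hpn]
  nlinarith [mul_le_mul_of_nonneg_left hc hC]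

end SLACKx

open SLACKx in
theorem p_SLACK :
    S_SLACK := by
  intro α γ C h hs hγ hγ1 hC
  refine ⟨fun n => 2 * W α n + 2 * C / (n : ℝ) ^ γ, fun n => ?_, ?_, ?_, ?_⟩
  · have := W_nonneg h n
    have : (0 : ℝ) ≤ (n : ℝ) ^ γ := Real.rpow_nonneg (Nat.cast_nonneg n) γ
    positivity
  · have h1 : Tendsto (fun n : ℕ => (n : ℝ) ^ γ) atTop atTop :=
      (tendsto_rpow_atTop hγ).comp tendsto_natCast_atTop_atTop
    have h2 : Tendsto (fun n : ℕ => 2 * C / (n : ℝ) ^ γ) atTop (𝓝 0) :=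
      tendsto_const_nhds.div_atTop h1
    have h3 := ((W_tendsto h hs).const_mul 2).add h2
    simpa using h3
  · refine (((W_summable h hs).mul_left 2).add (pow_summable hγ C)).congr fun n => ?_
    rw [add_div, mul_div_assoc 2 (W α (n + 1))]
  · intro z n hz h1 h2
    have := win_le h hz h1 h2
    have := pow_le hγ hγ1 hC hz h1 h2
    show _ ≤ 2 * W α n + 2 * C / (n : ℝ) ^ γ
    linarith

end Pool.Agent.P.MP_c7fa75_pr.R2
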