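import Pool.Agent.P.MP_c7fa75_pr.R2.Iface

/-! Step SMOM. -/

set_option autoImplicit false

namespace Pool.Agent.P.MP_c7fa75_pr.R2

open MeasureTheory ProbabilityTheory Filter Topology Finset
open scoped ENNReal Classical
open Pool.Agent.P.MP_c7fa75_pr.T

namespace SMOMx

theorem sq_up {N c B t : ℝ} (ht : 1 ≤ t) (hc : |c| ≤ B) :
    (N + c) ^ 2 ≤ (1 + 1 / t) * N ^ 2 + (1 + t) * B ^ 2 := by
  have h0 : 0 < t := by linarith
  have h1 : c ^ 2 ≤ B ^ 2 := sq_le_sq' (abs_le.1 hc).1 (abs_le.1 hc).2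
  have h2 : 2 * N * c ≤ 1 / t * N ^ 2 + t * c ^ 2 := by
    have : 1 / t * N ^ 2 + t * c ^ 2 - 2 * N * c = (N - t * c) ^ 2 / t := by field_simp; ring
    have : 0 ≤ (N - t * c) ^ 2 / t := by positivity
    linarith
  have h3 : t * c ^ 2 ≤ t * B ^ 2 := mul_le_mul_of_nonneg_left h1 h0.le
  nlinarith

theorem sq_lo {N c B t : ℝ} (ht : 1 ≤ t) (hc : |c| ≤ B) :
    (1 - 1 / t) * N ^ 2 - t * B ^ 2 ≤ (N + c) ^ 2 := by
  have h0 : 0 < t := by linarith
  have h1 : c ^ 2 ≤ B ^ 2 := sq_le_sq' (abs_le.1 hc).1 (abs_le.1 hc).2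
  have h2 : -(2 * N * c) ≤ 1 / t * N ^ 2 + t * c ^ 2 := by
    have : 1 / t * N ^ 2 + t * c ^ 2 + 2 * N * c = (N + t * c) ^ 2 / t := by field_simp; ring
    have : 0 ≤ (N + t * c) ^ 2 / t := by positivity
    linarith
  have h3 : t * c ^ 2 ≤ t * B ^ 2 := mul_le_mul_of_nonneg_left h1 h0.le
  nlinarith [sq_nonneg c]

theorem four_up {N c B : ℝ} (hc : |c| ≤ B) : (N + c) ^ 4 ≤ 8 * N ^ 4 + 8 * B ^ 4 := by
  have h1 : c ^ 2 ≤ B ^ 2 := sq_le_sq' (abs_le.1 hc).1 (abs_le.1 hc).2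
  have h2 : c ^ 4 ≤ B ^ 4 := by nlinarith [sq_nonneg c, sq_nonneg B]
  have h3 : (N + c) ^ 2 ≤ 2 * N ^ 2 + 2 * c ^ 2 := by nlinarith [sq_nonneg (N - c)]
  have h4 : ((N + c) ^ 2) ^ 2 ≤ (2 * N ^ 2 + 2 * c ^ 2) ^ 2 :=
    pow_le_pow_left₀ (sq_nonneg _) h3 2
  nlinarith [sq_nonneg (N ^ 2 - c ^ 2)]

end SMOMx

open SMOMx in
theorem p_SMOM (hMOM : S_MOM) :
    S_SMOM := by
  intro w hw A hA k z t hk hkz ht htz hB
  obtain ⟨m1, m2, m3, m4⟩ := hMOM w hw A hA (z + 1 - k) (4 * z)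
  have hA0 : 0 ≤ A := by simpa using hA 0
  have hk' : (1 : ℝ) ≤ k := by exact_mod_cast hk
  have hy : ((z + 1 - k : ℕ) : ℝ) = z + 1 - k := by
    rw [Nat.cast_sub (by omega)]; push_cast; ring
  have ht0 : 0 < t := by linarith
  have hz1 : (1 : ℝ) ≤ z := by linarith
  have hz0 : (0 : ℝ) < z := by linarith
  set B : ℝ := k + A with hBdef
  have hB1 : 1 ≤ B := by linarith
  have hs : ∀ a b : ℕ, (a : ℝ) - b + 1 - k = mg w a b + (1 - k + psum w (a + b)) := by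
    intro a b; unfold mg; ring
  have hc : ∀ n : ℕ, |1 - (k : ℝ) + psum w n| ≤ B := by
    intro n
    have := abs_le.1 ((abs_psum_le w n).trans (hA n))
    rw [abs_le]; constructor <;> linarith [this.1, this.2]
  rw [hy] at m2
  have hBB : B ≤ t * B ^ 2 := by nlinarith
  have hti : 1 / t ≤ 1 := by rw [div_le_one ht0]; exact ht
  have hti0 : 0 ≤ 1 / t := by positivity
  have r4 : Ex w (z + 1 - k) (4 * z) (fun a b => ((a : ℝ) - b + 1 - k) ^ 4) ≤
      2560 * (z : ℝ) ^ 2 + 8 * B ^ 2 * (z : ℝ) ^ 2 := by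
    have h1 := Ex_mono w (z + 1 - k) (4 * z) (V := fun a b => ((a : ℝ) - b + 1 - k) ^ 4)
      (V' := fun a b => 8 * mg w a b ^ 4 + 8 * B ^ 4) fun a b _ => by
        rw [hs]; exact four_up (hc _)
    rw [Ex_add, Ex_mul, Ex_const] at h1
    push_cast at m4
    have h2 : B ^ 2 ≤ (z : ℝ) ^ 2 := pow_le_pow_left₀ (by linarith) hB 2
    have h3 : B ^ 2 * B ^ 2 ≤ B ^ 2 * (z : ℝ) ^ 2 := mul_le_mul_of_nonneg_left h2 (sq_nonneg _)
    nlinarith
  refine ⟨?_, ?_, ?_, r4⟩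
  · have hw' : ∀ a b, Reach (z + 1 - k) (4 * z) a b →
        |psum w (a + b) - psum w z| ≤ win (fun i => |2 * w i - 1|) z := by
      intro a b hr
      obtain ⟨h1, h2, h3⟩ := hr
      refine abs_psum_win w ?_ h2
      by_cases hb : b < z + 1 - k
      · have := h3 hb; omega
      · omega
    have h1 := Ex_mono w (z + 1 - k) (4 * z) (V := fun a b => (a : ℝ) - b + 1 - k)
      (V' := fun a b => mg w a b + (1 - k + psum w z + win (fun i => |2 * w i - 1|) z))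
      fun a b hr => by rw [hs]; linarith [(abs_le.1 (hw' a b hr)).2]
    have h2 := Ex_mono w (z + 1 - k) (4 * z) (V' := fun a b => (a : ℝ) - b + 1 - k)
      (V := fun a b => mg w a b + (1 - k + psum w z - win (fun i => |2 * w i - 1|) z))
      fun a b hr => by rw [hs]; linarith [(abs_le.1 (hw' a b hr)).1]
    rw [Ex_add, Ex_const] at h1 h2
    have m1' : Ex w (z + 1 - k) (4 * z) (fun a b => mg w a b) = 0 := m1
    rw [abs_le]; constructor <;> linarith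
  · have h1 := Ex_mono w (z + 1 - k) (4 * z) (V := fun a b => ((a : ℝ) - b + 1 - k) ^ 2)
      (V' := fun a b => (1 + 1 / t) * mg w a b ^ 2 + (1 + t) * B ^ 2) fun a b _ => by
        rw [hs]; exact sq_up ht (hc _)
    rw [Ex_add, Ex_mul, Ex_const] at h1
    have h2 : Ex w (z + 1 - k) (4 * z) (fun a b => mg w a b ^ 2) ≤ 2 * z + B := by linarith
    have h3 := mul_le_mul_of_nonneg_left h2 (show 0 ≤ 1 + 1 / t by linarith)
    have h4 : 1 / t * B ≤ B := by nlinarith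
    have h5 : B ^ 2 ≤ t * B ^ 2 := by nlinarith [sq_nonneg B]
    have h6 : 2 * z / t = 1 / t * (2 * z) := by ring
    nlinarith
  · have h1 := Ex_mono w (z + 1 - k) (4 * z) (V' := fun a b => ((a : ℝ) - b + 1 - k) ^ 2)
      (V := fun a b => (1 - 1 / t) * mg w a b ^ 2 - t * B ^ 2) fun a b _ => by
        rw [hs]; exact sq_lo ht (hc _)
    rw [Ex_sub, Ex_mul, Ex_const] at h1
    have hz3 : (0 : ℝ) < 16 * (z : ℝ) ^ 3 := by positivity
    have h2 := Ex_mono w (z + 1 - k) (4 * z) (V' := fun _ b => (b : ℝ))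
      (V := fun a b => ((z : ℝ) + 1 - k) - 1 / (16 * (z : ℝ) ^ 3) * ((a : ℝ) - b + 1 - k) ^ 4)
      fun a b hr => by
        obtain ⟨h1, h2, h3⟩ := hr
        by_cases hb : b < z + 1 - k
        · have e : (a : ℝ) + b = 4 * z := by exact_mod_cast h3 hb
          have hb' : (b : ℝ) + 1 ≤ z + 1 - k := by rw [← hy]; exact_mod_cast hb
          have h4 : 2 * (z : ℝ) ≤ a - b + 1 - k := by linarith
          have h5 := pow_le_pow_left₀ (by positivity) h4 4
          have h6 : (z : ℝ) ≤ 1 / (16 * (z : ℝ) ^ 3) * ((a : ℝ) - b + 1 - k) ^ 4 := by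
            rw [one_div, inv_mul_eq_div, le_div_iff₀ hz3]; nlinarith
          have : (0 : ℝ) ≤ b := Nat.cast_nonneg b
          linarith
        · have e : b = z + 1 - k := by omega
          have : 0 ≤ 1 / (16 * (z : ℝ) ^ 3) * ((a : ℝ) - b + 1 - k) ^ 4 := by positivity
          rw [← hy, ← e]; linarith
    rw [Ex_sub, Ex_mul, Ex_const] at h2
    have h3 := mul_le_mul_of_nonneg_left r4 (show 0 ≤ 1 / (16 * (z : ℝ) ^ 3) by positivity)
    have h4 : 1 / (16 * (z : ℝ) ^ 3) * (2560 * (z : ℝ) ^ 2 + 8 * B ^ 2 * (z : ℝ) ^ 2) =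
        160 / z + B ^ 2 / z / 2 := by field_simp; ring
    have h5 : B ^ 2 / z ≤ t * B ^ 2 := by
      refine (div_le_self (sq_nonneg _) hz1).trans ?_
      nlinarith [sq_nonneg B]
    have h6 : 160 / (z : ℝ) ≤ 160 * (z / t) := by
      have : t ≤ z := by nlinarith
      have : 1 ≤ (z : ℝ) / t := by rw [le_div_iff₀ ht0]; linarith
      have : 160 / (z : ℝ) ≤ 160 := div_le_self (by norm_num) hz1
      linarith
    have h7 : Ex w (z + 1 - k) (4 * z) (fun a b => mg w a b ^ 2) ≤ 3 * z := by linarith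
    have h8 := mul_le_mul_of_nonneg_left h7 hti0
    have h9 : 1 / t * (3 * (z : ℝ)) = 3 * (z / t) := by ring
    have h10 : 323 * (z : ℝ) / t = 323 * (z / t) := by ring
    nlinarith

end Pool.Agent.P.MP_c7fa75_pr.R2
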