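import Pool.Agent.P.MP_c7fa75_pr.R2.Iface

/-! Step TAIL. -/

set_option autoImplicit false

namespace Pool.Agent.P.MP_c7fa75_pr.R2

open MeasureTheory ProbabilityTheory Filter Topology Finset
open scoped ENNReal Classical
open Pool.Agent.P.MP_c7fa75_pr.T

namespace TAILx

theorem min_le {B z γ : ℝ} (hB : 0 ≤ B) (hz : 0 < z) (h0 : 0 < γ) (h1 : γ ≤ 1 / 2) :
    min (B ^ 2 / z) B ≤ B ^ (1 + 2 * γ) / z ^ (2 * γ) := by
  have hzg : 0 < z ^ (2 * γ) := Real.rpow_pos_of_pos hz _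
  rcases hB.eq_or_lt with hB0 | hB0
  · subst hB0
    have : (0 : ℝ) ^ (1 + 2 * γ) = 0 := Real.zero_rpow (by linarith)
    simp [this]
  have hsplit : B ^ (1 + 2 * γ) = B * B ^ (2 * γ) := by
    rw [Real.rpow_add hB0, Real.rpow_one]
  rcases le_total B z with h | h
  · refine (min_le_left _ _).trans ?_
    have hq0 : 0 < B / z := div_pos hB0 hz
    have hq1 : B / z ≤ 1 := (div_le_one hz).2 h
    have h2 : (B / z) ^ (1 : ℝ) ≤ (B / z) ^ (2 * γ) :=
      Real.rpow_le_rpow_of_exponent_ge hq0 hq1 (by linarith)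
    rw [Real.rpow_one, Real.div_rpow hB0.le hz.le] at h2
    rw [hsplit, mul_div_assoc]
    calc B ^ 2 / z = B * (B / z) := by ring
      _ ≤ _ := mul_le_mul_of_nonneg_left h2 hB0.le
  · refine (min_le_right _ _).trans ?_
    rw [hsplit, le_div_iff₀ hzg]
    exact mul_le_mul_of_nonneg_left (Real.rpow_le_rpow hz.le h (by linarith)) hB0.le

theorem pow_le {a b p : ℝ} (ha : 0 ≤ a) (hb : 0 ≤ b) (h0 : 0 ≤ p) (h2 : p ≤ 2) :
    (a + b) ^ p ≤ 4 * (a ^ p + b ^ p) := by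
  have hap : 0 ≤ a ^ p := Real.rpow_nonneg ha _
  have hbp : 0 ≤ b ^ p := Real.rpow_nonneg hb _
  have h4 : (2 : ℝ) ^ p ≤ 4 := by
    calc (2 : ℝ) ^ p ≤ 2 ^ (2 : ℝ) := Real.rpow_le_rpow_of_exponent_le (by norm_num) h2
      _ = 4 := by norm_num
  have key : ∀ c : ℝ, 0 ≤ c → a + b ≤ 2 * c → (a + b) ^ p ≤ 4 * c ^ p := by
    intro c hc h
    calc (a + b) ^ p ≤ (2 * c) ^ p := Real.rpow_le_rpow (by positivity) h h0
      _ = 2 ^ p * c ^ p := Real.mul_rpow (by norm_num) hc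
      _ ≤ 4 * c ^ p := mul_le_mul_of_nonneg_right h4 (Real.rpow_nonneg hc _)
  rcases le_total a b with h | h
  · have := key b hb (by linarith)
    linarith
  · have := key a ha (by linarith)
    linarith

end TAILx

theorem p_TAIL :
    S_TAIL := by
  intro P0 _ γ A k hM
  obtain ⟨h0, h1, hA, hA0, hI, -⟩ := hM
  set G : (ℕ → ℝ) → ℝ := fun w => 4 * ((k : ℝ) ^ (1 + 2 * γ) + A w ^ (1 + 2 * γ)) with hG
  have hGI : Integrable G P0 := ((integrable_const _).add hI).const_mul 4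
  have hG0 : ∀ w, 0 ≤ G w := fun w => by
    have h2 : 0 ≤ (k : ℝ) ^ (1 + 2 * γ) := Real.rpow_nonneg (Nat.cast_nonneg k) _
    have h3 : 0 ≤ A w ^ (1 + 2 * γ) := Real.rpow_nonneg (hA0 w) _
    simp only [hG]
    positivity
  refine ⟨∫ w, G w ∂P0, integral_nonneg hG0, fun z hz => ?_⟩
  have hz0 : (0 : ℝ) < z := by exact_mod_cast hz
  have hzg : 0 < (z : ℝ) ^ (2 * γ) := Real.rpow_pos_of_pos hz0 _
  have hzg1 : 0 < (z : ℝ) ^ γ := Real.rpow_pos_of_pos hz0 _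
  have hB : ∀ w, 0 ≤ (k : ℝ) + A w := fun w => add_nonneg (Nat.cast_nonneg k) (hA0 w)
  have hle : ∀ w, min (((k : ℝ) + A w) ^ 2 / z) (k + A w) ≤ G w / (z : ℝ) ^ (2 * γ) := by
    intro w
    refine (TAILx.min_le (hB w) hz0 h0 h1).trans ?_
    exact div_le_div_of_nonneg_right
      (TAILx.pow_le (Nat.cast_nonneg k) (hA0 w) (by linarith) (by linarith)) hzg.le
  have hnn : ∀ w, 0 ≤ min (((k : ℝ) + A w) ^ 2 / z) (k + A w) := fun w =>
    le_min (by positivity) (hB w)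
  have hmeas : Measurable fun w => min (((k : ℝ) + A w) ^ 2 / z) (k + A w) := by
    fun_prop
  have hInt : Integrable (fun w => min (((k : ℝ) + A w) ^ 2 / z) (k + A w)) P0 := by
    refine Integrable.mono' (hGI.div_const ((z : ℝ) ^ (2 * γ))) hmeas.aestronglyMeasurable ?_
    refine Eventually.of_forall fun w => ?_
    rw [Real.norm_eq_abs, abs_of_nonneg (hnn w)]
    exact hle w
  refine ⟨hInt, ?_⟩
  have h5 : ∫ w, min (((k : ℝ) + A w) ^ 2 / z) (k + A w) ∂P0 ≤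
      (∫ w, G w ∂P0) / (z : ℝ) ^ (2 * γ) := by
    rw [← integral_div]
    exact integral_mono hInt (hGI.div_const _) hle
  have h6 : (z : ℝ) ^ (2 * γ) = (z : ℝ) ^ γ * (z : ℝ) ^ γ := by
    rw [← Real.rpow_add hz0]
    congr 1
    ring
  calc (z : ℝ) ^ γ * ∫ w, min (((k : ℝ) + A w) ^ 2 / z) (k + A w) ∂P0
      ≤ (z : ℝ) ^ γ * ((∫ w, G w ∂P0) / (z : ℝ) ^ (2 * γ)) :=
        mul_le_mul_of_nonneg_left h5 hzg1.le
    _ = (∫ w, G w ∂P0) / (z : ℝ) ^ γ := by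
        rw [h6]
        field_simp

end Pool.Agent.P.MP_c7fa75_pr.R2
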