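import Pool.Agent.P.MP_c7fa75_pr.R2.Iface
import Pool.Agent.P.MP_c7fa75_pr.T.TSURVQ
import Pool.Agent.P.MP_c7fa75_pr.T.TKILLQ
import Pool.Agent.P.MP_c7fa75_pr.T.TMain

/-! From the Lyapunov functions to the walkers. -/

set_option autoImplicit false

namespace Pool.Agent.P.MP_c7fa75_pr.R2

open MeasureTheory ProbabilityTheory Filter Topology Finset
open scoped ENNReal Classical
open Pool.Agent.P.MP_c7fa75_pr.T

theorem surv2 (hINF : S_INF) (hCH : S_CH) (hSUP : S_SUP) (hLYS : S_LYS)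
    (P0 : Measure (ℕ → ℝ)) [IsProbabilityMeasure P0] (γ : ℝ) (A : (ℕ → ℝ) → ℝ) (r : ℕ)
    (h01 : In01 P0) (hM : Mom P0 γ A) (hr : 1 ≤ r)
    (hs : Summable (gg (fun n => 1 - r + dd P0 n))) :
    ∀ᵐ a ∂Fld P0, Surv a r ∧ ∀ x m, ∃ i, m ≤ i ∧ a x i = true := by
  obtain ⟨f, z0, hz0, hf1, hf0, hfs⟩ := hLYS P0 γ A r h01 hM hr hs
  have mF : ∀ z : ℕ, Measurable (fun e : ℕ → Bool => Rr e (tau e (z + 1 - r) (4 * z))) :=
    fun z => meas_Rr_tau _ _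
  have hsup := hSUP (ℕ → Bool) (Qa P0) (fun e z => Rr e (tau e (z + 1 - r) (4 * z))) r z0 f mF hz0
    hf1 hfs
  have hch := hCH (ℕ → Bool) (ℤ → ℕ → Bool) (Qa P0) (Fld P0)
    (fun (n : ℕ) (a : ℤ → ℕ → Bool) => a ((n : ℤ) + 1))
    (fun e z => Rr e (tau e (z + 1 - r) (4 * z))) r mF (fun n => measurable_pi_apply _)
    (fld_indep P0) (fun n => fld_map P0 _)
  set S : ℕ → Set (ℤ → ℕ → Bool) := fun z => {ω | ∀ n, r ≤
    it (fun (e : ℕ → Bool) (z : ℕ) => Rr e (tau e (z + 1 - r) (4 * z)))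
      (fun i : ℕ => ω ((i : ℤ) + 1)) z (n + 1)} with hS
  have hcompl : ∀ z, Fld P0 (S z)ᶜ ≤ f z := by
    intro z
    have h1 := hsup z
    rw [← (hch z).2] at h1
    have h2 : Fld P0 (S z) + Fld P0 (S z)ᶜ = 1 := prob_add_prob_compl (hch z).1
    have h3 : Fld P0 (S z) + Fld P0 (S z)ᶜ ≤ Fld P0 (S z) + f z := h2.le.trans h1
    exact (ENNReal.add_le_add_iff_left (measure_ne_top _ _)).1 h3
  have hal : ∀ᵐ a ∂Fld P0, ∃ z, r ≤ z ∧ a ∈ S z := by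
    rw [ae_iff]
    refine le_antisymm (ge_of_tendsto hf0 ?_) zero_le
    filter_upwards [eventually_ge_atTop r] with z hz
    refine (measure_mono fun a ha => ?_).trans (hcompl z)
    exact fun h => ha ⟨z, hz, h⟩
  have hJ : ∀ᵐ w ∂P0, ∀ n, 0 ≤ n → - A w ≤ psum w n :=
    hM.2.2.2.2.2.mono fun w hw n _ => (abs_le.1 ((abs_psum_le w n).trans (hw n))).1
  filter_upwards [hal, SURVQx.inf_true hINF P0 h01 0 (fun w => - A w) hJ] with a ha hi
  obtain ⟨z, hz, ha⟩ := ha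
  exact ⟨SURVQx.surv_of_alive a r z (fun z => 4 * z) hz (hi 0) ha, hi⟩

theorem kill2 (hCYL : S_CYL) (hINF : S_INF) (hCH : S_CH) (hKILL : S_KILL) (hLYK : S_LYK)
    (P0 : Measure (ℕ → ℝ)) [IsProbabilityMeasure P0] (γ : ℝ) (A : (ℕ → ℝ) → ℝ) (r : ℕ)
    (h01 : In01 P0) (hM : Mom P0 γ A) (hW : Wl P0) (hr : 1 ≤ r)
    (hs : ¬ Summable (gg (fun n => 1 - r + dd P0 n))) : ∀ᵐ a ∂Fld P0, ¬ Surv a r := by
  obtain ⟨f, z0, hf, hft, hfs⟩ := hLYK P0 γ A r h01 hM hr hs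
  have mF : ∀ z, Measurable (fun e : ℕ → Bool => Uo e (z + 1 - r)) := fun z => meas_Uo _
  have hk := hKILL (ℕ → Bool) (Qa P0) (fun e z => Uo e (z + 1 - r)) r z0 f mF hf hft hfs
    (fun z => KILLQx.pos hCYL P0 h01 hW _ r hr)
  have hnull : ∀ᵐ a ∂Fld P0, ∀ z, ¬ ∀ n, r ≤ it (fun e z => Uo e (z + 1 - r))
      (fun i : ℕ => a ((i : ℤ) + 1)) z (n + 1) := by
    rw [ae_all_iff]
    intro z
    have := (hCH (ℕ → Bool) (ℤ → ℕ → Bool) (Qa P0) (Fld P0) (fun n a => a ((n : ℤ) + 1))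
      (fun e z => Uo e (z + 1 - r)) r mF (fun n => measurable_pi_apply _) (fld_indep P0)
      (fun n => fld_map P0 _) z).2
    rw [hk z] at this
    rw [ae_iff]
    simpa only [not_not] using this
  have hinf := ae_fld P0 (KILLQx.inf hINF P0 h01 0 A
    (hM.2.2.2.2.2.mono fun w hw n _ => (abs_le.1 ((abs_psum_le w n).trans (hw n))).2))
  filter_upwards [hnull, hinf] with a h1 h2 hs
  obtain ⟨z, hz⟩ := KILLQx.alive a r h2 hs
  exact h1 z hz

theorem core2 (hRUN0 : S_RUN0) (hFLD : S_FLD) (hDT : S_DT) (hFLOW : S_FLOW) (hNET : S_NET)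
    (hNOL : S_NOL) (hSRW : S_SRW) (hRFL0 : S_RFL0) (hCYL : S_CYL) (hINF : S_INF) (hCH : S_CH)
    (hSUP : S_SUP) (hKILL : S_KILL) (hLYS : S_LYS) (hLYK : S_LYK) (hENV2 : S_ENV2)
    (Θ : Type) [MeasurableSpace Θ] (μ : Measure Θ) [IsProbabilityMeasure μ] (M : Mod μ)
    (P0 : Measure (ℕ → ℝ)) [IsProbabilityMeasure P0] (γ : ℝ) (A : (ℕ → ℝ) → ℝ) (h01 : In01 P0)
    (hEnv : Env μ M.W P0) (hWl : Wl P0) (hWr : Wr P0) (hM : Mom P0 γ A) (hdm : dm P0 ≤ dp P0)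
    (k : ℕ) (hk : 1 ≤ k) :
    (Summable (gg (fun n => 1 - k + dd P0 n)) →
      ∀ᵐ θ ∂μ, Tendsto (M.X (k - 1) θ) atTop atTop) ∧
    (¬ Summable (gg (fun n => 1 - k + dd P0 n)) → ∀ᵐ θ ∂μ, ¬ Tr (M.X (k - 1) θ)) := by
  obtain ⟨-, -, -, -, hLim, hHm⟩ := hENV2 P0 γ A h01 hM
  obtain ⟨R, hRW, hRX⟩ := hRUN0 Θ μ M k
  have hEnvR : Env μ R.W P0 := by rw [hRW]; exact hEnv
  have hdmt : dm P0 < ⊤ := (hRFL0 P0).2.2.2.2.2.2.1 hHm
  have hlt : dm P0 < 1 + dp P0 := by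
    by_cases hp : dp P0 = ⊤
    · rw [hp]; simpa using hdmt
    · calc dm P0 ≤ dp P0 := hdm
        _ < dp P0 + 1 := ENNReal.lt_add_right hp one_ne_zero
        _ = 1 + dp P0 := add_comm _ _
  have hL := hNOL Θ μ k R P0 h01 hEnvR hWr hLim hHm hlt
  have hTop : ∀ᵐ θ ∂μ, Good (fun i => R.X i θ) k →
      ∀ i, i < k → Tendsto (R.X i θ) atTop atTop := by
    filter_upwards [hL] with θ hθ hG i hi
    rcases (hFLOW (R.X i θ) ((R.nn θ).1 i) ((R.nn θ).2 i)).2.1 (hG i hi) with h | h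
    · exact h
    · exact absurd h (hθ hG i hi)
  refine ⟨fun ha => ?_, fun hb => ?_⟩
  · have hS := surv2 hINF hCH hSUP hLYS P0 γ A k h01 hM hk ha
    have hF := hFLD Θ μ k R P0 h01 hEnvR _ hS
    filter_upwards [hF, hTop] with θ hθ hT
    obtain ⟨a, ⟨hs, hinf⟩, hfol⟩ := hθ
    have hG := hDT a _ k (R.nn θ) hfol hs hinf
    have h := hT hG (k - 1) (by omega)
    rw [hRX] at h
    exact h
  · have hN := hFLD Θ μ k R P0 h01 hEnvR (fun a => ¬ Surv a k)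
      (kill2 hCYL hINF hCH hKILL hLYK P0 γ A k h01 hM hWl hk hb)
    have hS := hSRW Θ μ M (k - 1)
    filter_upwards [hN, hTop, hS] with θ hθ hT hs hTr
    have hG1 : Good (fun i => M.X i θ) (k - 1) := by
      by_contra hne
      exact hs hne hTr
    have hG : Good (fun i => R.X i θ) k := by
      intro i hi
      rw [hRX]
      by_cases h : i < k - 1
      · exact hG1 i h
      · have e : i = k - 1 := by omega
        rw [e]; exact hTr
    obtain ⟨a, ha, hF⟩ := hθ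
    refine ha ⟨fun x => off (fun i => R.X i θ) k (x : ℤ), fun x => ?_⟩
    have h := hNET a (fun i => R.X i θ) k k (R.nn θ) hF le_rfl hG x
    rw [Finset.filter_true_of_mem (fun i hi => hT hG i (Finset.mem_range.mp hi)),
      Finset.card_range] at h
    have e : ((x + 1 : ℕ) : ℤ) = (x : ℤ) + 1 := by push_cast; rfl
    simp only [e]
    rw [h]

/-- The sharp criterion in the model of the problem. -/
def S_Sharp : Prop :=
  ∀ (P : Measure (ℤ → ℕ → ℝ)), IsProbabilityMeasure P →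
    (∀ᵐ ω ∂P, ∀ (x : ℤ) (n : ℕ), ω x n ∈ Set.Icc (0 : ℝ) 1) →
    iIndepFun (fun (x : ℤ) (ω : ℤ → ℕ → ℝ) => ω x) P →
    (∀ x : ℤ, IdentDistrib (fun ω : ℤ → ℕ → ℝ => ω x) (fun ω => ω 0) P P) →
    (∀ x : ℤ, 0 < P {ω | ∀ n, 0 < ω x n} ∧ 0 < P {ω | ∀ n, ω x n < 1}) →
    (∃ p : ℝ, 1 < p ∧ ∫⁻ ω, (∑' i : ℕ, ENNReal.ofReal |2 * ω 0 i - 1|) ^ p ∂P < ⊤) →
    0 ≤ drift P →
    ∀ (Θ : Type) [MeasurableSpace Θ] (μ : Measure Θ), IsProbabilityMeasure μ →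
    ∀ (W : Θ → ℤ → ℕ → ℝ) (X : ℕ → Θ → ℕ → ℤ) (env : ℕ → Θ → ℤ → ℕ → ℝ),
    Measurable W → μ.map W = P → (∀ j, Measurable (X j)) →
    env 0 = W →
    (∀ (j : ℕ) (θ : Θ) (x : ℤ) (n : ℕ),
        Tendsto (fun m => |X j θ m|) atTop atTop →
          env (j + 1) θ x n = env j θ x (n + Nat.card {m : ℕ // X j θ m = x})) →
    (∀ (j : ℕ) (θ : Θ) (x : ℤ) (n : ℕ),
        ¬ Tendsto (fun m => |X j θ m|) atTop atTop → env (j + 1) θ x n = 1 / 2) →
    (∀ (j : ℕ) (θ : Θ), X j θ 0 = 0) →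
    (∀ (j : ℕ) (θ : Θ) (n : ℕ), X j θ (n + 1) = X j θ n + 1 ∨ X j θ (n + 1) = X j θ n - 1) →
    (∀ (j n : ℕ),
        condExp
          (MeasurableSpace.comap
            (fun θ => (W θ, (fun i : Fin j => X (i : ℕ) θ), (fun m : Fin (n + 1) => X j θ (m : ℕ))))
            inferInstance)
          μ
          (Set.indicator {θ | X j θ (n + 1) = X j θ n + 1} (fun _ => (1 : ℝ)))
        =ᵐ[μ] fun θ => env j θ (X j θ n)
          ((Finset.range n).filter (fun m => X j θ m = X j θ n)).card) →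
    ∀ k : ℕ, 1 ≤ k →
      (Summable (fun m : ℕ => Real.exp (∑ n ∈ Finset.range m,
          ((k : ℝ) - 1 - ∫ ω, psum (ω 0) (n + 1) ∂P) / ((n : ℝ) + 1))) →
        ∀ᵐ θ ∂μ, Tendsto (fun n => X (k - 1) θ n) atTop atTop) ∧
      (¬ Summable (fun m : ℕ => Real.exp (∑ n ∈ Finset.range m,
          ((k : ℝ) - 1 - ∫ ω, psum (ω 0) (n + 1) ∂P) / ((n : ℝ) + 1))) →
        μ {θ | Tendsto (fun n => |X (k - 1) θ n|) atTop atTop} = 0)

theorem sharp (hRUN0 : S_RUN0) (hFLD : S_FLD) (hDT : S_DT) (hFLOW : S_FLOW) (hNET : S_NET)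
    (hNOL : S_NOL) (hSRW : S_SRW) (hRFL0 : S_RFL0) (hCYL : S_CYL) (hINF : S_INF) (hCH : S_CH)
    (hSUP : S_SUP) (hKILL : S_KILL) (hLYS : S_LYS) (hLYK : S_LYK) (hENV1 : S_ENV1)
    (hENV2 : S_ENV2) : S_Sharp := by
  intro P hP h01 hind hid hell hmom hdr Θ _ μ hμ W X env hW hmap hX he0 heT heN hx0 hnn hce k hk
  subst hmap
  have m0 : Measurable (fun ω : ℤ → ℕ → ℝ => ω 0) := measurable_pi_apply 0
  set P := μ.map W with hPdef
  set P0 : Measure (ℕ → ℝ) := P.map (fun ω => ω 0) with hP0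
  have : IsProbabilityMeasure P0 := Measure.isProbabilityMeasure_map m0.aemeasurable
  let M : Mod μ :=
    { W := W, X := X, env := env, mW := hW, mX := hX, env0 := he0, envT := heT, envN := heN,
      nn := fun θ => ⟨fun j => hx0 j θ, fun j n => hnn j θ n⟩, ce := hce }
  have a01 : In01 P0 :=
    (ae_map_iff m0.aemeasurable Mainx.meas_in).2 (h01.mono fun ω h => h 0)
  have aenv : Env μ M.W P0 := Mainx.env_of hW hind hid
  have aWl : Wl P0 := by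
    unfold Wl
    rw [Measure.map_apply m0 Mainx.meas_l]
    exact (hell 0).2
  have aWr : Wr P0 := by
    unfold Wr
    rw [Measure.map_apply m0 Mainx.meas_r]
    exact (hell 0).1
  obtain ⟨p, hp, hmom⟩ := hmom
  obtain ⟨γ, A, hM⟩ := hENV1 P0 p hp (by
    have hh : Measurable fun w : ℕ → ℝ => (∑' i : ℕ, ENNReal.ofReal |2 * w i - 1|) ^ p :=
      (Measurable.ennreal_tsum fun i => by fun_prop).pow_const p
    rw [lintegral_map hh m0]
    exact hmom)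
  have edr : drift P = (dp P0 : EReal) - (dm P0 : EReal) := by
    unfold drift dp dm
    have hh : Measurable fun w : ℕ → ℝ => (-(total w)).toENNReal := meas_total.neg.ereal_toENNReal
    rw [lintegral_map meas_total.ereal_toENNReal m0, lintegral_map hh m0]
  have hfin : dm P0 ≠ ⊤ := ((hRFL0 P0).2.2.2.2.2.2.1 (hENV2 P0 γ A a01 hM).2.2.2.2.2).ne
  have hle : dm P0 ≤ dp P0 := by
    have := (Mainx.le_iff (dp P0) 0 hfin).1 (by rw [← edr]; simpa using hdr)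
    simpa using this
  obtain ⟨c1, c2⟩ := core2 hRUN0 hFLD hDT hFLOW hNET hNOL hSRW hRFL0 hCYL hINF hCH hSUP hKILL hLYS
    hLYK hENV2 Θ μ M P0 γ A a01 aenv aWl aWr hM hle k hk
  have e : (fun m : ℕ => Real.exp (∑ n ∈ Finset.range m,
      ((k : ℝ) - 1 - ∫ ω, psum (ω 0) (n + 1) ∂P) / ((n : ℝ) + 1))) =
      gg (fun n => 1 - k + dd P0 n) := by
    funext m
    rw [gg, ← sum_neg_distrib]
    congr 1
    refine sum_congr rfl fun n _ => ?_
    rw [dd, integral_map m0.aemeasurable (meas_psum _).aestronglyMeasurable]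
    ring
  rw [e]
  refine ⟨c1, fun h => ?_⟩
  have h3 := c2 h
  rw [ae_iff] at h3
  simp only [not_not] at h3
  exact h3

end Pool.Agent.P.MP_c7fa75_pr.R2
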