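import Pool.Agent.P.MP_c7fa75_pr.T.TCE
import Pool.Agent.P.MP_c7fa75_pr.T.TRUN0
import Pool.Agent.P.MP_c7fa75_pr.T.TIDX
import Pool.Agent.P.MP_c7fa75_pr.T.TMEAS
import Pool.Agent.P.MP_c7fa75_pr.T.TARR
import Pool.Agent.P.MP_c7fa75_pr.T.TCYL
import Pool.Agent.P.MP_c7fa75_pr.T.TEXT
import Pool.Agent.P.MP_c7fa75_pr.T.TLAW
import Pool.Agent.P.MP_c7fa75_pr.T.TFLD
import Pool.Agent.P.MP_c7fa75_pr.T.TFLOW
import Pool.Agent.P.MP_c7fa75_pr.T.TUSE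
import Pool.Agent.P.MP_c7fa75_pr.T.TNET
import Pool.Agent.P.MP_c7fa75_pr.T.TDT
import Pool.Agent.P.MP_c7fa75_pr.T.TINF
import Pool.Agent.P.MP_c7fa75_pr.T.TMART
import Pool.Agent.P.MP_c7fa75_pr.T.TQL
import Pool.Agent.P.MP_c7fa75_pr.T.TCH
import Pool.Agent.P.MP_c7fa75_pr.T.TKILL
import Pool.Agent.P.MP_c7fa75_pr.T.TLR0
import Pool.Agent.P.MP_c7fa75_pr.T.TLR1
import Pool.Agent.P.MP_c7fa75_pr.T.TLR2
import Pool.Agent.P.MP_c7fa75_pr.T.TKILLQ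
import Pool.Agent.P.MP_c7fa75_pr.T.TNOR
import Pool.Agent.P.MP_c7fa75_pr.T.TREFL
import Pool.Agent.P.MP_c7fa75_pr.T.TRFL0
import Pool.Agent.P.MP_c7fa75_pr.T.THT
import Pool.Agent.P.MP_c7fa75_pr.T.TKAP
import Pool.Agent.P.MP_c7fa75_pr.T.THR1
import Pool.Agent.P.MP_c7fa75_pr.T.TNOL
import Pool.Agent.P.MP_c7fa75_pr.T.THALF
import Pool.Agent.P.MP_c7fa75_pr.T.TSRW
import Pool.Agent.P.MP_c7fa75_pr.T.TSUP
import Pool.Agent.P.MP_c7fa75_pr.R2.TMOM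
import Pool.Agent.P.MP_c7fa75_pr.R2.TSMOM
import Pool.Agent.P.MP_c7fa75_pr.R2.TPLO
import Pool.Agent.P.MP_c7fa75_pr.R2.TQLO
import Pool.Agent.P.MP_c7fa75_pr.R2.TTAIL
import Pool.Agent.P.MP_c7fa75_pr.R2.TENV2
import Pool.Agent.P.MP_c7fa75_pr.R2.TALO
import Pool.Agent.P.MP_c7fa75_pr.R2.TSLACK
import Pool.Agent.P.MP_c7fa75_pr.R2.TSEQ
import Pool.Agent.P.MP_c7fa75_pr.R2.TLOSS
import Pool.Agent.P.MP_c7fa75_pr.R2.TLYS
import Pool.Agent.P.MP_c7fa75_pr.R2.TPUP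
import Pool.Agent.P.MP_c7fa75_pr.R2.TQUP
import Pool.Agent.P.MP_c7fa75_pr.R2.TAUP
import Pool.Agent.P.MP_c7fa75_pr.R2.TLYK
import Pool.Agent.P.MP_c7fa75_pr.R2.TENV1
import Pool.Agent.P.MP_c7fa75_pr.R2.Top

/-! All steps put together. -/

set_option autoImplicit false

namespace Pool.Agent.P.MP_c7fa75_pr.R2

open Pool.Agent.P.MP_c7fa75_pr.T

theorem got_CE : S_CE := p_CE
theorem got_RUN0 : S_RUN0 := p_RUN0 got_CE
theorem got_IDX : S_IDX := p_IDX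
theorem got_MEAS : S_MEAS := p_MEAS
theorem got_ARR : S_ARR := p_ARR got_IDX got_MEAS
theorem got_CYL : S_CYL := p_CYL
theorem got_EXT : S_EXT := p_EXT
theorem got_LAW : S_LAW := p_LAW got_CYL got_EXT
theorem got_FLD : S_FLD := p_FLD got_ARR got_LAW
theorem got_FLOW : S_FLOW := p_FLOW
theorem got_USE : S_USE := p_USE
theorem got_NET : S_NET := p_NET got_FLOW got_USE
theorem got_DT : S_DT := p_DT got_FLOW got_USE got_NET
theorem got_INF : S_INF := p_INF got_CYL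
theorem got_MART : S_MART := p_MART got_CYL
theorem got_QL : S_QL := p_QL got_MART
theorem got_CH : S_CH := p_CH
theorem got_KILL : S_KILL := p_KILL
theorem got_LR0 : S_LR0 := p_LR0
theorem got_LR1 : S_LR1 := p_LR1 got_LR0
theorem got_LR2 : S_LR2 := p_LR2 got_LR1
theorem got_KILLQ : S_KILLQ := p_KILLQ got_CYL got_INF got_QL got_CH got_KILL got_LR2
theorem got_NOR : S_NOR := p_NOR got_FLD got_NET got_KILLQ
theorem got_REFL : S_REFL := p_REFL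
theorem got_RFL0 : S_RFL0 := p_RFL0
theorem got_HT : S_HT := p_HT
theorem got_KAP : S_KAP := p_KAP
theorem got_HR1 : S_HR1 := p_HR1 got_HT got_KAP got_RFL0
theorem got_NOL : S_NOL := p_NOL got_NOR got_REFL got_RFL0 got_HR1
theorem got_HALF : S_HALF := p_HALF got_NOR got_NOL got_HR1 got_FLOW
theorem got_SRW : S_SRW := p_SRW got_CE got_MEAS got_HALF
theorem got_SUP : S_SUP := p_SUP
theorem got_MOM : S_MOM := p_MOM
theorem got_SMOM : S_SMOM := p_SMOM got_MOM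
theorem got_PLO : S_PLO := p_PLO
theorem got_QLO : S_QLO := p_QLO got_SMOM got_PLO
theorem got_TAIL : S_TAIL := p_TAIL
theorem got_ENV2 : S_ENV2 := p_ENV2
theorem got_ALO : S_ALO := p_ALO got_QLO got_TAIL got_ENV2
theorem got_SLACK : S_SLACK := p_SLACK
theorem got_SEQ : S_SEQ := p_SEQ
theorem got_LOSS : S_LOSS := p_LOSS
theorem got_LYS : S_LYS := p_LYS got_ALO got_ENV2 got_SLACK got_SEQ got_LOSS
theorem got_PUP : S_PUP := p_PUP
theorem got_QUP : S_QUP := p_QUP got_MOM got_SMOM got_PUP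
theorem got_AUP : S_AUP := p_AUP got_QUP got_TAIL got_ENV2
theorem got_LYK : S_LYK := p_LYK got_AUP got_ENV2 got_SLACK got_SEQ
theorem got_ENV1 : S_ENV1 := p_ENV1

theorem got_Sharp : S_Sharp :=
  sharp got_RUN0 got_FLD got_DT got_FLOW got_NET got_NOL got_SRW got_RFL0 got_CYL got_INF got_CH
    got_SUP got_KILL got_LYS got_LYK got_ENV1 got_ENV2

end Pool.Agent.P.MP_c7fa75_pr.R2
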