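import Pool.Agent.P.MP_c7fa75_pr.R2.Defs
import Pool.Agent.P.MP_c7fa75_pr.T.TCYL

/-! Small library: the operator `Ex`, the scale function. -/

set_option autoImplicit false

open MeasureTheory ProbabilityTheory Filter Topology Finset
open scoped ENNReal Classical

namespace Pool.Agent.P.MP_c7fa75_pr.R2

open Pool.Agent.P.MP_c7fa75_pr.T

/-! ### States -/

theorem reach_tau (e : ℕ → Bool) (y n : ℕ) :
    Reach y n (Rr e (tau e y n)) (Ll e (tau e y n)) := by
  have h1 := Rr_add_Ll e (tau e y n)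
  have h2 := tau_le e y n
  rcases tau_cases e y n with h | h
  · exact ⟨h.le, by omega, by omega⟩
  · rw [h.1] at h1 ⊢
    exact ⟨h.2.le, by omega, fun _ => h1⟩

theorem tau_frozen {e : ℕ → Bool} {y m n : ℕ} (h : Ll e (tau e y m) = y) (hmn : m ≤ n) :
    tau e y n = tau e y m := by
  induction n, hmn using Nat.le_induction with
  | base => rfl
  | succ n hn ih =>
    have := Ll_mono e ((tau_le e y m).trans hn)
    rw [tau_succ, if_neg (by omega), ih]

theorem tau_mono (e : ℕ → Bool) (y : ℕ) : Monotone (tau e y) :=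
  monotone_nat_of_le_succ fun n => by
    have := tau_le e y n
    rw [tau_succ]; split_ifs <;> omega

theorem meas_state (y n : ℕ) (V : ℕ → ℕ → ℝ) :
    Measurable (fun e : ℕ → Bool => V (Rr e (tau e y n)) (Ll e (tau e y n))) :=
  (Measurable.of_discrete (f := fun p : ℕ × ℕ => V p.1 p.2)).comp
    ((meas_Rr_tau y n).prodMk (meas_app (meas_tau y n) (g := fun a n => Ll a n) meas_Ll))

theorem state_bound (y n : ℕ) (V : ℕ → ℕ → ℝ) :
    ∃ K : ℝ, 0 < K ∧ ∀ e : ℕ → Bool, |V (Rr e (tau e y n)) (Ll e (tau e y n))| ≤ K := by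
  refine ⟨1 + ∑ p ∈ range (n + 1) ×ˢ range (n + 1), |V p.1 p.2|,
    add_pos_of_pos_of_nonneg one_pos (sum_nonneg fun _ _ => abs_nonneg _), fun e => ?_⟩
  have h := reach_tau e y n
  have := single_le_sum (f := fun p : ℕ × ℕ => |V p.1 p.2|) (fun _ _ => abs_nonneg _)
    (show (Rr e (tau e y n), Ll e (tau e y n)) ∈ range (n + 1) ×ˢ range (n + 1) by
      simp only [mem_product, mem_range]
      have := h.2.1
      omega)
  linarith

theorem intg (w : ℕ → ℝ) (y n : ℕ) (V : ℕ → ℕ → ℝ) : Integrable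
    (fun u => V (Rr (arr w u) (tau (arr w u) y n)) (Ll (arr w u) (tau (arr w u) y n))) (lamU ℕ) := by
  obtain ⟨K, -, hK⟩ := state_bound y n V
  exact Integrable.of_bound ((meas_state y n V).comp (meas_arr w)).aestronglyMeasurable K
    (ae_of_all _ fun u => hK _)

/-! ### The operator `Ex` -/

section
variable (w : ℕ → ℝ) (y n : ℕ)

theorem Ex_zero (V : ℕ → ℕ → ℝ) : Ex w y 0 V = V 0 0 := by simp [Ex, tau]

theorem Ex_const (c : ℝ) : Ex w y n (fun _ _ => c) = c := by simp [Ex]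

theorem Ex_add (V V' : ℕ → ℕ → ℝ) :
    Ex w y n (fun a b => V a b + V' a b) = Ex w y n V + Ex w y n V' :=
  integral_add (intg w y n V) (intg w y n V')

theorem Ex_sub (V V' : ℕ → ℕ → ℝ) :
    Ex w y n (fun a b => V a b - V' a b) = Ex w y n V - Ex w y n V' :=
  integral_sub (intg w y n V) (intg w y n V')

theorem Ex_mul (c : ℝ) (V : ℕ → ℕ → ℝ) : Ex w y n (fun a b => c * V a b) = c * Ex w y n V :=
  integral_const_mul _ _

theorem Ex_neg (V : ℕ → ℕ → ℝ) : Ex w y n (fun a b => - V a b) = - Ex w y n V :=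
  integral_neg _

theorem Ex_mono {V V' : ℕ → ℕ → ℝ} (h : ∀ a b, Reach y n a b → V a b ≤ V' a b) :
    Ex w y n V ≤ Ex w y n V' :=
  integral_mono (intg w y n V) (intg w y n V') fun _ => h _ _ (reach_tau _ y n)

end

theorem integral_step {w : ℕ → ℝ} (hw : ∀ i, w i ∈ Set.Icc (0 : ℝ) 1) {n : ℕ}
    {G : (ℕ → Bool) → ℝ} (hG : ∀ e e' : ℕ → Bool, (∀ i, i < n → e i = e' i) → G e = G e')
    (b : Bool) :
    ∫ u, G (arr w u) * (if arr w u n = b then 1 else 0) ∂lamU ℕ =
      (∫ u, G (arr w u) ∂lamU ℕ) * pr (w n) b := by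
  have h1 : iIndepFun (fun (i : ℕ) (u : ℕ → unitInterval) => arr w u i) (lamU ℕ) :=
    iIndepFun_infinitePi (X := fun (i : ℕ) (v : unitInterval) => arr1 (w i) v)
      (fun _ => meas_arr1 measurable_const measurable_id)
  have mi : ∀ i, Measurable (fun u : ℕ → unitInterval => arr w u i) := fun i =>
    (measurable_pi_apply i).comp (meas_arr w)
  have h2 := h1.indepFun_finset (range n) {n} (by simp) mi
  have h3 := h2.integral_fun_comp_mul_comp
    (f := fun r => G (fun i => if h : i ∈ range n then r ⟨i, h⟩ else false))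
    (g := fun r => if r ⟨n, mem_singleton_self n⟩ = b then (1 : ℝ) else 0)
    (measurable_pi_lambda _ fun i : range n => mi i).aemeasurable
    (measurable_pi_lambda _ fun i : ({n} : Finset ℕ) => mi i).aemeasurable
    Measurable.of_discrete.aestronglyMeasurable Measurable.of_discrete.aestronglyMeasurable
  have h4 : ∀ u, G (fun i => if h : i ∈ range n then arr w u i else false) = G (arr w u) :=
    fun u => hG _ _ fun i hi => by simp [hi]
  simp only [h4] at h3
  rw [h3]
  congr 1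
  have h5 := p_CYL ℕ w hw {n} (fun _ => b)
  simp only [mem_singleton, forall_eq, prod_singleton] at h5
  have h6 : MeasurableSet {u : ℕ → unitInterval | arr w u n = b} :=
    mi n (measurableSet_singleton b)
  rw [← h5, ← integral_indicator_one h6]
  refine integral_congr_ae (ae_of_all _ fun u => ?_)
  simp [Set.indicator_apply]

/-- Supermartingales of the state. -/
theorem Ex_succ_le {w : ℕ → ℝ} (hw : ∀ i, w i ∈ Set.Icc (0 : ℝ) 1) (y n : ℕ) {V : ℕ → ℕ → ℝ}
    (h : ∀ a b, b < y → w (a + b) * V (a + 1) b + (1 - w (a + b)) * V a (b + 1) ≤ V a b) :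
    Ex w y (n + 1) V ≤ Ex w y n V := by
  set V1 : ℕ → ℕ → ℝ := fun a b => if b < y then V (a + 1) b else V a b with hV1
  set V0 : ℕ → ℕ → ℝ := fun a b => if b < y then V a (b + 1) else V a b with hV0
  have dep : ∀ (U : ℕ → ℕ → ℝ) (e e' : ℕ → Bool), (∀ i, i < n → e i = e' i) →
      U (Rr e (tau e y n)) (Ll e (tau e y n)) = U (Rr e' (tau e' y n)) (Ll e' (tau e' y n)) := by
    intro U e e' hh
    have := tau_le e' y n
    rw [tau_congr y hh, Rr_congr fun i hi => hh i (by omega), Ll_congr fun i hi => hh i (by omega)]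
  have key : ∀ e : ℕ → Bool, V (Rr e (tau e y (n + 1))) (Ll e (tau e y (n + 1))) =
      V1 (Rr e (tau e y n)) (Ll e (tau e y n)) * (if e n = true then 1 else 0) +
      V0 (Rr e (tau e y n)) (Ll e (tau e y n)) * (if e n = false then 1 else 0) := by
    intro e
    rw [tau_succ]
    by_cases hl : Ll e n < y
    · rw [if_pos hl, tau_of_lt hl, Rr_succ, Ll_succ]
      cases e n <;> simp [hV1, hV0, hl]
    · have h1 : ¬ Ll e (tau e y n) < y := by
        rcases tau_cases e y n with h1 | h1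
        · omega
        · exact absurd h1.2 hl
      rw [if_neg hl]
      cases e n <;> simp [hV1, hV0, h1]
  have ib : ∀ (U : ℕ → ℕ → ℝ) (b : Bool), Integrable (fun u =>
      U (Rr (arr w u) (tau (arr w u) y n)) (Ll (arr w u) (tau (arr w u) y n)) *
        (if arr w u n = b then (1 : ℝ) else 0)) (lamU ℕ) := by
    intro U b
    refine (intg w y n U).mul_bdd (c := 1) ?_ (ae_of_all _ fun u => ?_)
    · exact ((Measurable.of_discrete (f := fun c : Bool => if c = b then (1 : ℝ) else 0)).comp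
        ((measurable_pi_apply n).comp (meas_arr w))).aestronglyMeasurable
    · split_ifs <;> simp
  have e1 : Ex w y (n + 1) V = Ex w y n (fun a b => w n * V1 a b + (1 - w n) * V0 a b) := by
    rw [Ex_add, Ex_mul, Ex_mul]
    unfold Ex
    simp only [key]
    rw [integral_add (ib V1 true) (ib V0 false), integral_step hw (dep V1), integral_step hw (dep V0),
      pr_true, pr_false]
    ring
  rw [e1]
  refine Ex_mono w y n fun a b hr => ?_
  by_cases hb : b < y
  · have := h a b hb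
    rw [hr.2.2 hb] at this
    simpa only [hV1, hV0, if_pos hb] using this
  · simp only [hV1, hV0, if_neg hb]
    linarith

theorem Ex_le {w : ℕ → ℝ} (hw : ∀ i, w i ∈ Set.Icc (0 : ℝ) 1) (y n : ℕ) {V : ℕ → ℕ → ℝ}
    (h : ∀ a b, b < y → w (a + b) * V (a + 1) b + (1 - w (a + b)) * V a (b + 1) ≤ V a b) :
    Ex w y n V ≤ V 0 0 := by
  induction n with
  | zero => exact (Ex_zero w y V).le
  | succ n ih => exact (Ex_succ_le hw y n h).trans ih

/-- Fubini for functions of the state. -/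
theorem Ex_Qa (P0 : Measure (ℕ → ℝ)) [IsProbabilityMeasure P0] (y n : ℕ) (V : ℕ → ℕ → ℝ) :
    Integrable (fun e => V (Rr e (tau e y n)) (Ll e (tau e y n))) (Qa P0) ∧
    Integrable (fun w => Ex w y n V) P0 ∧
    ∫ e, V (Rr e (tau e y n)) (Ll e (tau e y n)) ∂Qa P0 = ∫ w, Ex w y n V ∂P0 := by
  obtain ⟨K, -, hK⟩ := state_bound y n V
  have hφ := meas_state y n V
  have hi : Integrable (fun p : (ℕ → ℝ) × (ℕ → unitInterval) =>
      V (Rr (arr p.1 p.2) (tau (arr p.1 p.2) y n)) (Ll (arr p.1 p.2) (tau (arr p.1 p.2) y n)))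
      (P0.prod (lamU ℕ)) :=
    Integrable.of_bound (hφ.comp meas_arr2).aestronglyMeasurable K (ae_of_all _ fun p => hK _)
  refine ⟨Integrable.of_bound hφ.aestronglyMeasurable K (ae_of_all _ hK), hi.integral_prod_left, ?_⟩
  rw [Qa, integral_map meas_arr2.aemeasurable hφ.aestronglyMeasurable, integral_prod _ hi]
  rfl

/-! ### The scale function -/

theorem gg_pos (κ : ℕ → ℝ) (i : ℕ) : 0 < gg κ i := Real.exp_pos _
theorem gg_zero (κ : ℕ → ℝ) : gg κ 0 = 1 := by simp [gg]
theorem gg_succ (κ : ℕ → ℝ) (i : ℕ) :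
    gg κ (i + 1) = gg κ i * Real.exp (-(κ (i + 1) / ((i : ℝ) + 1))) := by
  rw [gg, gg, sum_range_succ, ← Real.exp_add, neg_add]
theorem gg_add (κ : ℕ → ℝ) (i j : ℕ) :
    gg κ (i + j) = gg κ i * Real.exp (-∑ n ∈ range j, κ (i + n + 1) / ((i : ℝ) + n + 1)) := by
  rw [gg, gg, sum_range_add, ← Real.exp_add, neg_add]
  simp only [Nat.cast_add]
theorem ff_zero (κ : ℕ → ℝ) : ff κ 0 = 0 := rfl
theorem ff_succ (κ : ℕ → ℝ) (x : ℕ) : ff κ (x + 1) = ff κ x + gg κ x := sum_range_succ _ _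
theorem ff_strictMono (κ : ℕ → ℝ) : StrictMono (ff κ) :=
  strictMono_nat_of_lt_succ fun n => by rw [ff_succ]; linarith [gg_pos κ n]
theorem ff_mono (κ : ℕ → ℝ) : Monotone (ff κ) := (ff_strictMono κ).monotone
theorem ff_nonneg (κ : ℕ → ℝ) (x : ℕ) : 0 ≤ ff κ x := ff_mono κ (Nat.zero_le x)

/-! ### Drift sums -/

theorem abs_psum_sub_le (w : ℕ → ℝ) {m n : ℕ} (h : m ≤ n) :
    |psum w n - psum w m| ≤ ∑ i ∈ Ico m n, |2 * w i - 1| := by
  rw [psum, psum, ← sum_Ico_eq_sub _ h]
  exact abs_sum_le_sum_abs _ _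
theorem abs_psum_le (w : ℕ → ℝ) (n : ℕ) : |psum w n| ≤ ∑ i ∈ range n, |2 * w i - 1| :=
  abs_sum_le_sum_abs _ _
theorem abs_psum_win (w : ℕ → ℝ) {z n : ℕ} (h1 : z / 2 ≤ n) (h2 : n ≤ 4 * z) :
    |psum w n - psum w z| ≤ win (fun i => |2 * w i - 1|) z := by
  have hz : z / 2 ≤ z := Nat.div_le_self _ _
  rcases le_total z n with h | h
  · exact (abs_psum_sub_le w h).trans (sum_le_sum_of_subset_of_nonneg
      (Ico_subset_Ico hz h2) fun _ _ _ => abs_nonneg _)
  · rw [abs_sub_comm]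
    exact (abs_psum_sub_le w h).trans (sum_le_sum_of_subset_of_nonneg
      (Ico_subset_Ico h1 (by omega)) fun _ _ _ => abs_nonneg _)
theorem mg_right (w : ℕ → ℝ) (a b : ℕ) : mg w (a + 1) b = mg w a b + 1 - (2 * w (a + b) - 1) := by
  rw [mg, mg, show a + 1 + b = a + b + 1 by ring, psum_succ]; push_cast; ring
theorem mg_left (w : ℕ → ℝ) (a b : ℕ) : mg w a (b + 1) = mg w a b - 1 - (2 * w (a + b) - 1) := by
  rw [mg, mg, ← add_assoc, psum_succ]; push_cast; ring

end Pool.Agent.P.MP_c7fa75_pr.R2
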