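import Pool.Agent.P.MP_c7fa75_pr.T.Iface

/-! Working definitions for the sharp criterion. -/

set_option autoImplicit false

open MeasureTheory ProbabilityTheory Filter Topology Finset
open scoped ENNReal Classical

namespace Pool.Agent.P.MP_c7fa75_pr.R2

open Pool.Agent.P.MP_c7fa75_pr.T

/-- Quenched expectation of `V rights lefts` at the minimum of `n` and the time of the `y`-th left
arrow. -/
noncomputable def Ex (w : ℕ → ℝ) (y n : ℕ) (V : ℕ → ℕ → ℝ) : ℝ :=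
  ∫ u, V (Rr (arr w u) (tau (arr w u) y n)) (Ll (arr w u) (tau (arr w u) y n)) ∂lamU ℕ

/-- The states `(rights, lefts)` that occur at that time. -/
def Reach (y n a b : ℕ) : Prop := b ≤ y ∧ a + b ≤ n ∧ (b < y → a + b = n)

/-- The martingale part of `rights - lefts`. -/
def mg (w : ℕ → ℝ) (a b : ℕ) : ℝ := (a : ℝ) - b - psum w (a + b)

/-- The increments of the scale function. -/
noncomputable def gg (κ : ℕ → ℝ) (i : ℕ) : ℝ :=
  Real.exp (-∑ n ∈ range i, κ (n + 1) / ((n : ℝ) + 1))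

/-- The scale function. -/
noncomputable def ff (κ : ℕ → ℝ) (x : ℕ) : ℝ := ∑ i ∈ range x, gg κ i

/-- The comparison polynomial; `σ = -1` from below, `σ = 1` from above. -/
noncomputable def Phi (σ κ C z t s : ℝ) : ℝ :=
  s - κ * s ^ 2 / (2 * z) + σ * (6 * s ^ 2 / (z * t) + 1 / t + C * t * s ^ 4 / z ^ 3)

/-- The sum of `α` over the window of `z`. -/
noncomputable def win (α : ℕ → ℝ) (z : ℕ) : ℝ := ∑ i ∈ Ico (z / 2) (4 * z), α i

/-- `A` bounds the absolute drift of the stack and has a moment of order `1 + 2 γ`. -/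
def Mom (P0 : Measure (ℕ → ℝ)) (γ : ℝ) (A : (ℕ → ℝ) → ℝ) : Prop :=
  0 < γ ∧ γ ≤ 1 / 2 ∧ Measurable A ∧ (∀ w, 0 ≤ A w) ∧
    Integrable (fun w => A w ^ (1 + 2 * γ)) P0 ∧
    ∀ᵐ w ∂P0, ∀ n, ∑ i ∈ range n, |2 * w i - 1| ≤ A w

noncomputable def al (P0 : Measure (ℕ → ℝ)) (i : ℕ) : ℝ := ∫ w, |2 * w i - 1| ∂P0

noncomputable def dd (P0 : Measure (ℕ → ℝ)) (n : ℕ) : ℝ := ∫ w, psum w n ∂P0

end Pool.Agent.P.MP_c7fa75_pr.R2
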