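import Pool.Agent.P.MP_c7fa75_pr.R2.Basic

/-! The statements of all steps of the sharp criterion. -/

set_option autoImplicit false

namespace Pool.Agent.P.MP_c7fa75_pr.R2

open MeasureTheory ProbabilityTheory Filter Topology Finset
open scoped ENNReal Classical
open Pool.Agent.P.MP_c7fa75_pr.T

-- deps:
def S_MOM : Prop :=
  ∀ (w : ℕ → ℝ), (∀ i, w i ∈ Set.Icc (0 : ℝ) 1) → ∀ A : ℝ,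
    (∀ n, ∑ i ∈ range n, |2 * w i - 1| ≤ A) → ∀ y n : ℕ,
    Ex w y n (mg w) = 0 ∧
    Ex w y n (fun a b => mg w a b ^ 2) ≤ 2 * y + A ∧
    2 * Ex w y n (fun _ b => (b : ℝ)) - 2 * A ≤ Ex w y n (fun a b => mg w a b ^ 2) ∧
    Ex w y n (fun a b => mg w a b ^ 4) ≤ 20 * (n : ℝ) ^ 2

-- deps: MOM
def S_SMOM : Prop :=
  ∀ (w : ℕ → ℝ), (∀ i, w i ∈ Set.Icc (0 : ℝ) 1) → ∀ A : ℝ,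
    (∀ n, ∑ i ∈ range n, |2 * w i - 1| ≤ A) → ∀ (k z : ℕ) (t : ℝ),
    1 ≤ k → 2 * k ≤ z → 1 ≤ t → t ^ 2 ≤ z → (k : ℝ) + A ≤ z →
    |Ex w (z + 1 - k) (4 * z) (fun a b => (a : ℝ) - b + 1 - k) - (1 - k + psum w z)| ≤
      win (fun i => |2 * w i - 1|) z ∧
    Ex w (z + 1 - k) (4 * z) (fun a b => ((a : ℝ) - b + 1 - k) ^ 2) ≤
      2 * z + 2 * z / t + 4 * t * (k + A) ^ 2 ∧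
    2 * z - 323 * z / t - 4 * t * (k + A) ^ 2 ≤
      Ex w (z + 1 - k) (4 * z) (fun a b => ((a : ℝ) - b + 1 - k) ^ 2) ∧
    Ex w (z + 1 - k) (4 * z) (fun a b => ((a : ℝ) - b + 1 - k) ^ 4) ≤
      2560 * (z : ℝ) ^ 2 + 8 * (k + A) ^ 2 * (z : ℝ) ^ 2

-- deps:
def S_PLO : Prop :=
  ∀ (κ : ℕ → ℝ) (κb C0 t : ℝ) (z x : ℕ), 0 ≤ κb → κb ≤ 2 → 0 ≤ C0 → 1 ≤ t → t ^ 2 ≤ z →
    (∀ n, 3 * z ≤ 4 * n → 4 * n ≤ 5 * z → κ n ≤ κb) → ff κ z ≤ C0 * z * t * gg κ z →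
    gg κ z * Phi (-1) κb (256 * C0 + 64) z t ((x : ℝ) - z) ≤ ff κ x - ff κ z

-- deps:
def S_PUP : Prop :=
  ∀ (κ : ℕ → ℝ) (κb t : ℝ) (z x : ℕ), (∀ n, 0 ≤ κ n) → 0 ≤ κb → κb ≤ 2 → 1 ≤ t → t ^ 2 ≤ z →
    (∀ n, 3 * z ≤ 4 * n → 4 * n ≤ 5 * z → κb ≤ κ n) →
    ff κ x - ff κ z ≤ gg κ z * Phi 1 κb 64 z t ((x : ℝ) - z) ∧
      ff κ x - ff κ z ≤ gg κ z * ((x : ℝ) - z)

-- deps: SMOM PLO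
def S_QLO : Prop :=
  ∀ C0 : ℝ, 0 ≤ C0 → ∃ C : ℝ, 0 ≤ C ∧ ∀ (w : ℕ → ℝ), (∀ i, w i ∈ Set.Icc (0 : ℝ) 1) → ∀ A : ℝ,
    (∀ n, ∑ i ∈ range n, |2 * w i - 1| ≤ A) → ∀ (k z : ℕ) (t κb : ℝ) (κ : ℕ → ℝ),
    1 ≤ k → 2 * k ≤ z → 1 ≤ t → t ^ 2 ≤ z → 0 ≤ κb → κb ≤ 2 →
    (∀ n, 3 * z ≤ 4 * n → 4 * n ≤ 5 * z → κ n ≤ κb) → ff κ z ≤ C0 * z * t * gg κ z →
    ff κ z + gg κ z * (1 - k + psum w z - κb - win (fun i => |2 * w i - 1|) z -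
        C * (1 / t + t * min ((k + A) ^ 2 / z) (k + A))) ≤
      Ex w (z + 1 - k) (4 * z) (fun a _ => ff κ a)

-- deps: MOM SMOM PUP
def S_QUP : Prop :=
  ∃ C : ℝ, 0 ≤ C ∧ ∀ (w : ℕ → ℝ), (∀ i, w i ∈ Set.Icc (0 : ℝ) 1) → ∀ A : ℝ,
    (∀ n, ∑ i ∈ range n, |2 * w i - 1| ≤ A) → ∀ (k z N : ℕ) (t κb : ℝ) (κ : ℕ → ℝ),
    1 ≤ k → 2 * k ≤ z → 4 * z ≤ N → 1 ≤ t → t ^ 2 ≤ z → (∀ n, 0 ≤ κ n) → 0 ≤ κb → κb ≤ 2 →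
    (∀ n, 3 * z ≤ 4 * n → 4 * n ≤ 5 * z → κb ≤ κ n) →
    Ex w (z + 1 - k) N (fun a _ => ff κ a) ≤
      ff κ z + gg κ z * (1 - k + psum w z - κb + win (fun i => |2 * w i - 1|) z +
        C * (1 / t + t * min ((k + A) ^ 2 / z) (k + A)))

-- deps:
def S_TAIL : Prop :=
  ∀ (P0 : Measure (ℕ → ℝ)) [IsProbabilityMeasure P0] (γ : ℝ) (A : (ℕ → ℝ) → ℝ) (k : ℕ),
    Mom P0 γ A → ∃ M : ℝ, 0 ≤ M ∧ ∀ z : ℕ, 1 ≤ z →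
    Integrable (fun w => min (((k : ℝ) + A w) ^ 2 / z) (k + A w)) P0 ∧
    (z : ℝ) ^ γ * ∫ w, min (((k : ℝ) + A w) ^ 2 / z) (k + A w) ∂P0 ≤ M / (z : ℝ) ^ γ

-- deps:
def S_ENV1 : Prop :=
  ∀ (P0 : Measure (ℕ → ℝ)) [IsProbabilityMeasure P0] (p : ℝ), 1 < p →
    ∫⁻ w, (∑' i : ℕ, ENNReal.ofReal |2 * w i - 1|) ^ p ∂P0 < ⊤ → ∃ γ A, Mom P0 γ A

-- deps:
def S_ENV2 : Prop :=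
  ∀ (P0 : Measure (ℕ → ℝ)) [IsProbabilityMeasure P0] (γ : ℝ) (A : (ℕ → ℝ) → ℝ),
    In01 P0 → Mom P0 γ A →
    Summable (al P0) ∧ (∃ L : ℝ, Tendsto (dd P0) atTop (𝓝 L)) ∧
    (∀ z n : ℕ, z / 2 ≤ n → n ≤ 4 * z → |dd P0 n - dd P0 z| ≤ win (al P0) z) ∧
    (∀ z : ℕ, Integrable (fun w => psum w z) P0 ∧
      Integrable (fun w => win (fun i => |2 * w i - 1|) z) P0 ∧
      ∫ w, win (fun i => |2 * w i - 1|) z ∂P0 = win (al P0) z) ∧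
    Lim P0 ∧ Hm P0

-- deps: QLO TAIL ENV2
def S_ALO : Prop :=
  ∀ (P0 : Measure (ℕ → ℝ)) [IsProbabilityMeasure P0] (γ : ℝ) (A : (ℕ → ℝ) → ℝ) (k : ℕ) (C0 : ℝ),
    In01 P0 → Mom P0 γ A → 1 ≤ k → 0 ≤ C0 → ∃ C : ℝ, 0 ≤ C ∧
    ∀ (z : ℕ) (κb : ℝ) (κ : ℕ → ℝ), 2 * k ≤ z → 0 ≤ κb → κb ≤ 2 →
    (∀ n, 3 * z ≤ 4 * n → 4 * n ≤ 5 * z → κ n ≤ κb) →
    ff κ z ≤ C0 * z * (z : ℝ) ^ γ * gg κ z →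
    ff κ z + gg κ z * (1 - k + dd P0 z - κb - win (al P0) z - C / (z : ℝ) ^ γ) ≤
      ∫ e, ff κ (Rr e (tau e (z + 1 - k) (4 * z))) ∂Qa P0

-- deps: QUP TAIL ENV2
def S_AUP : Prop :=
  ∀ (P0 : Measure (ℕ → ℝ)) [IsProbabilityMeasure P0] (γ : ℝ) (A : (ℕ → ℝ) → ℝ) (k : ℕ),
    In01 P0 → Mom P0 γ A → 1 ≤ k → ∃ C : ℝ, 0 ≤ C ∧
    ∀ (z : ℕ) (κb : ℝ) (κ : ℕ → ℝ), 2 * k ≤ z → (∀ n, 0 ≤ κ n) → 0 ≤ κb → κb ≤ 2 →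
    (∀ n, 3 * z ≤ 4 * n → 4 * n ≤ 5 * z → κb ≤ κ n) →
    ∫⁻ e, ENNReal.ofReal (ff κ (Uo e (z + 1 - k))) ∂Qa P0 ≤ ENNReal.ofReal
      (ff κ z + gg κ z * (1 - k + dd P0 z - κb + win (al P0) z + C / (z : ℝ) ^ γ))

-- deps:
def S_SLACK : Prop :=
  ∀ (α : ℕ → ℝ) (γ C : ℝ), (∀ i, 0 ≤ α i) → Summable α → 0 < γ → γ ≤ 1 → 0 ≤ C →
    ∃ sl : ℕ → ℝ, (∀ n, 0 ≤ sl n) ∧ Tendsto sl atTop (𝓝 0) ∧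
      Summable (fun n : ℕ => sl (n + 1) / ((n : ℝ) + 1)) ∧
      ∀ z n : ℕ, 6 ≤ z → 3 * z ≤ 4 * n → 4 * n ≤ 5 * z → 2 * win α z + C / (z : ℝ) ^ γ ≤ sl n

-- deps:
def S_SEQ : Prop :=
  ∀ (a sl : ℕ → ℝ) (L c : ℝ), Tendsto a atTop (𝓝 L) → (∀ n, 0 ≤ sl n) → Tendsto sl atTop (𝓝 0) →
    Summable (fun n : ℕ => sl (n + 1) / ((n : ℝ) + 1)) → 1 < c →
    (Summable (gg a) → 1 ≤ L ∧ Summable (gg (fun n => max 0 (min c (a n - sl n))))) ∧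
    (¬ Summable (gg a) → L ≤ 1 ∧ ¬ Summable (gg (fun n => max 0 (a n + sl n))))

-- deps:
def S_LOSS : Prop :=
  ∀ γ : ℝ, 0 < γ → γ ≤ 1 → ∃ C0 : ℝ, 0 ≤ C0 ∧ ∀ κ : ℕ → ℝ, (∀ n, κ n ≤ 1 + γ) →
    ∀ z : ℕ, 1 ≤ z → ff κ z ≤ C0 * z * (z : ℝ) ^ γ * gg κ z

-- deps: ALO ENV2 SLACK SEQ LOSS
def S_LYS : Prop :=
  ∀ (P0 : Measure (ℕ → ℝ)) [IsProbabilityMeasure P0] (γ : ℝ) (A : (ℕ → ℝ) → ℝ) (k : ℕ),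
    In01 P0 → Mom P0 γ A → 1 ≤ k → Summable (gg (fun n => 1 - k + dd P0 n)) →
    ∃ (f : ℕ → ℝ≥0∞) (z0 : ℕ), k ≤ z0 ∧ (∀ z, z < z0 → 1 ≤ f z) ∧ Tendsto f atTop (𝓝 0) ∧
      ∀ z, z0 ≤ z → ∫⁻ e, f (Rr e (tau e (z + 1 - k) (4 * z))) ∂Qa P0 ≤ f z

-- deps: AUP ENV2 SLACK SEQ
def S_LYK : Prop :=
  ∀ (P0 : Measure (ℕ → ℝ)) [IsProbabilityMeasure P0] (γ : ℝ) (A : (ℕ → ℝ) → ℝ) (k : ℕ),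
    In01 P0 → Mom P0 γ A → 1 ≤ k → ¬ Summable (gg (fun n => 1 - k + dd P0 n)) →
    ∃ (f : ℕ → ℝ≥0∞) (z0 : ℕ), (∀ z, f z < ⊤) ∧ Tendsto f atTop (𝓝 ⊤) ∧
      ∀ z, z0 ≤ z → ∫⁻ e, f (Uo e (z + 1 - k)) ∂Qa P0 ≤ f z

end Pool.Agent.P.MP_c7fa75_pr.R2
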