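import Pool.Agent.P.MP_c7fa75_pr.R2.Iface

/-! Step MOM. -/

set_option autoImplicit false

namespace Pool.Agent.P.MP_c7fa75_pr.R2

open MeasureTheory ProbabilityTheory Filter Topology Finset
open scoped ENNReal Classical
open Pool.Agent.P.MP_c7fa75_pr.T

namespace MOMx

theorem mg00 (w : ℕ → ℝ) : mg w 0 0 = 0 := by simp [mg, psum]

theorem four (N p s : ℝ) (h0 : 0 ≤ p) (h1 : p ≤ 1) (hs : 0 ≤ s) :
    p * ((N + 1 - (2 * p - 1)) ^ 4 - 8 * (s + 1) * (N + 1 - (2 * p - 1)) ^ 2 - 12 * (s + 1)) +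
      (1 - p) * ((N - 1 - (2 * p - 1)) ^ 4 - 8 * (s + 1) * (N - 1 - (2 * p - 1)) ^ 2 - 12 * (s + 1))
      ≤ N ^ 4 - 8 * s * N ^ 2 - 12 * s := by
  obtain ⟨e, he⟩ : ∃ e : ℝ, e = 2 * p - 1 := ⟨_, rfl⟩
  have hp : p = (1 + e) / 2 := by linarith
  have he2 : e ^ 2 ≤ 1 := by nlinarith
  have hv : 0 ≤ 1 - e ^ 2 := by linarith
  have key : p * ((N + 1 - (2 * p - 1)) ^ 4 - 8 * (s + 1) * (N + 1 - (2 * p - 1)) ^ 2 - 12 * (s + 1)) +
      (1 - p) * ((N - 1 - (2 * p - 1)) ^ 4 - 8 * (s + 1) * (N - 1 - (2 * p - 1)) ^ 2 - 12 * (s + 1))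
      - (N ^ 4 - 8 * s * N ^ 2 - 12 * s) =
      6 * N ^ 2 * (1 - e ^ 2) - 8 * N * (e * (1 - e ^ 2)) + (1 - e ^ 2) * (1 + 3 * e ^ 2) - 8 * N ^ 2
        - 8 * (s + 1) * (1 - e ^ 2) - 12 := by
    rw [← he, hp]
    ring
  have a1 : 6 * N ^ 2 * (1 - e ^ 2) ≤ 6 * N ^ 2 := by nlinarith [sq_nonneg N, sq_nonneg e, mul_nonneg (sq_nonneg N) (sq_nonneg e)]
  have a2 : (1 - e ^ 2) * (1 + 3 * e ^ 2) ≤ 4 := by nlinarith [sq_nonneg e, sq_nonneg (e ^ 2)]
  have a3 : 0 ≤ 8 * (s + 1) * (1 - e ^ 2) := by positivity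
  have a4 : (e * (1 - e ^ 2)) ^ 2 ≤ 1 := by
    have b1 : (1 - e ^ 2) ^ 2 ≤ 1 := by nlinarith [sq_nonneg e]
    rw [mul_pow]
    exact mul_le_one₀ he2 (sq_nonneg _) b1
  have a5 : - 8 * N * (e * (1 - e ^ 2)) ≤ 2 * N ^ 2 + 8 := by
    nlinarith [sq_nonneg (N + 2 * (e * (1 - e ^ 2)))]
  linarith

end MOMx

theorem p_MOM :
    S_MOM := by
  intro w hw A hA y n
  have h1 : Ex w y n (mg w) = 0 := by
    have a := Ex_le hw y n (V := mg w) (fun a b _ => by rw [mg_right, mg_left]; apply le_of_eq; ring)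
    have b := Ex_le hw y n (V := fun a b => - mg w a b)
      (fun a b _ => by rw [mg_right, mg_left]; apply le_of_eq; ring)
    rw [Ex_neg] at b
    rw [MOMx.mg00] at a b
    linarith
  have h2 : Ex w y n (fun a b => mg w a b ^ 2) ≤ Ex w y n (fun a b => (a : ℝ) + b) := by
    have a := Ex_le hw y n (V := fun a b => mg w a b ^ 2 - ((a : ℝ) + b)) (fun a b _ => by
      rw [mg_right, mg_left]
      push_cast
      nlinarith [sq_nonneg (2 * w (a + b) - 1)])
    rw [Ex_sub, MOMx.mg00] at a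
    simp only [Nat.cast_zero] at a
    linarith
  have hps : ∀ m, |psum w m| ≤ A := fun m => (abs_psum_le w m).trans (hA m)
  have h3 : Ex w y n (fun a b => (a : ℝ) + b) ≤ 2 * y + A := by
    have a := Ex_mono w y n (V := fun a b => (a : ℝ) + b) (V' := fun a b => (2 * y + A) + mg w a b)
      (fun a b hr => by
        have e1 : (b : ℝ) ≤ y := by exact_mod_cast hr.1
        have e2 := (abs_le.1 (hps (a + b))).2
        unfold mg
        linarith)
    rw [Ex_add w y n (fun _ _ => 2 * y + A), Ex_const, h1] at a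
    linarith
  have h4 : Ex w y n (fun a b => (a : ℝ) + b) ≤ n := by
    have a := Ex_mono w y n (V := fun a b => (a : ℝ) + b) (V' := fun _ _ => (n : ℝ))
      (fun a b hr => by exact_mod_cast hr.2.1)
    rwa [Ex_const] at a
  refine ⟨h1, h2.trans h3, ?_, ?_⟩
  · have a := Ex_le hw y n
      (V := fun a b => - mg w a b ^ 2 + ((a : ℝ) + b) - ∑ i ∈ range (a + b), |2 * w i - 1|)
      (fun a b _ => by
        rw [mg_right, mg_left, show a + 1 + b = a + b + 1 by ring, ← add_assoc a b 1, sum_range_succ]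
        push_cast
        have e1 := hw (a + b)
        have e2 : |2 * w (a + b) - 1| ≤ 1 := abs_le.2 ⟨by linarith [e1.1], by linarith [e1.2]⟩
        have e3 : (2 * w (a + b) - 1) ^ 2 ≤ |2 * w (a + b) - 1| := by
          rw [← sq_abs]
          nlinarith [abs_nonneg (2 * w (a + b) - 1)]
        nlinarith)
    rw [MOMx.mg00] at a
    have b := Ex_mono w y n
      (V := fun a b => 2 * (b : ℝ) + mg w a b - 2 * A - mg w a b ^ 2)
      (V' := fun a b => - mg w a b ^ 2 + ((a : ℝ) + b) - ∑ i ∈ range (a + b), |2 * w i - 1|)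
      (fun a b _ => by
        have e2 := (abs_le.1 (hps (a + b))).1
        have e3 := hA (a + b)
        have e4 : mg w a b = (a : ℝ) - b - psum w (a + b) := rfl
        linarith)
    rw [Ex_sub, Ex_sub, Ex_add, Ex_mul, Ex_const, h1] at b
    simp at a
    linarith
  · have a := Ex_le hw y n
      (V := fun a b => mg w a b ^ 4 - 8 * ((a : ℝ) + b) * mg w a b ^ 2 - 12 * ((a : ℝ) + b))
      (fun a b _ => by
        rw [mg_right, mg_left]
        have := MOMx.four (mg w a b) (w (a + b)) ((a : ℝ) + b) (hw _).1 (hw _).2 (by positivity)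
        push_cast
        rw [show (a : ℝ) + 1 + b = a + b + 1 by ring, ← add_assoc (a : ℝ) b 1]
        exact this)
    rw [MOMx.mg00] at a
    have b := Ex_mono w y n (V := fun a b => mg w a b ^ 4)
      (V' := fun a b => (mg w a b ^ 4 - 8 * ((a : ℝ) + b) * mg w a b ^ 2 - 12 * ((a : ℝ) + b)) +
        (8 * n * mg w a b ^ 2 + 12 * n))
      (fun a b hr => by
        have e1 : (a : ℝ) + b ≤ n := by exact_mod_cast hr.2.1
        nlinarith [sq_nonneg (mg w a b), mul_nonneg (sub_nonneg.2 e1) (sq_nonneg (mg w a b))])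
    rw [Ex_add, Ex_add, Ex_mul, Ex_const] at b
    have c : (n : ℝ) ≤ (n : ℝ) ^ 2 := by exact_mod_cast Nat.le_self_pow two_ne_zero n
    have d : 8 * (n : ℝ) * Ex w y n (fun a b => mg w a b ^ 2) ≤ 8 * n * n :=
      mul_le_mul_of_nonneg_left (h2.trans h4) (by positivity)
    simp at a
    nlinarith

end Pool.Agent.P.MP_c7fa75_pr.R2
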