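import Pool.Agent.P.MP_c7fa75_pr.R2.Iface

/-! Step PUP. -/

set_option autoImplicit false

namespace Pool.Agent.P.MP_c7fa75_pr.R2

open MeasureTheory ProbabilityTheory Filter Topology Finset
open scoped ENNReal Classical
open Pool.Agent.P.MP_c7fa75_pr.T

namespace PUPx

theorem gg_anti {κ : ℕ → ℝ} (h : ∀ n, 0 ≤ κ n) : Antitone (gg κ) :=
  antitone_nat_of_succ_le fun n => by
    rw [gg_succ]
    have h1 : Real.exp (-(κ (n + 1) / ((n : ℝ) + 1))) ≤ 1 :=
      Real.exp_le_one_iff.2 (neg_nonpos.2 (div_nonneg (h _) (by positivity)))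
    exact mul_le_of_le_one_right (gg_pos κ n).le h1

theorem conc_up {κ : ℕ → ℝ} (h : ∀ n, 0 ≤ κ n) (z s : ℕ) :
    ff κ (z + s) - ff κ z ≤ gg κ z * s := by
  induction s with
  | zero => simp
  | succ s ih =>
    rw [← add_assoc, ff_succ]
    have := gg_anti h (Nat.le_add_right z s)
    push_cast
    linarith

theorem conc_down {κ : ℕ → ℝ} (h : ∀ n, 0 ≤ κ n) (z : ℕ) :
    ∀ a x : ℕ, x + a = z → gg κ z * a ≤ ff κ z - ff κ x := by
  intro a
  induction a with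
  | zero => intro x hx; simp at hx; simp [hx]
  | succ a ih =>
    intro x hx
    have h1 := ih (x + 1) (by omega)
    rw [ff_succ] at h1
    have := gg_anti h (show x ≤ z by omega)
    push_cast
    linarith

theorem conc {κ : ℕ → ℝ} (h : ∀ n, 0 ≤ κ n) (z x : ℕ) :
    ff κ x - ff κ z ≤ gg κ z * ((x : ℝ) - z) := by
  rcases le_total z x with hx | hx
  · obtain ⟨s, rfl⟩ := Nat.exists_eq_add_of_le hx
    have := conc_up h z s
    push_cast
    simpa using this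
  · obtain ⟨a, rfl⟩ := Nat.exists_eq_add_of_le hx
    have := conc_down h (x + a) a x rfl
    push_cast
    linarith

theorem gg_up {κ : ℕ → ℝ} {κb : ℝ} {z : ℕ} (hz : (0 : ℝ) < z) (h0 : 0 ≤ κb) (h2 : κb ≤ 2)
    (hk : ∀ n, 3 * z ≤ 4 * n → 4 * n ≤ 5 * z → κb ≤ κ n) (j : ℕ) (hj : 4 * j ≤ z) :
    gg κ (z + j) ≤ gg κ z * (1 - κb * j / z + 6 * (j : ℝ) ^ 2 / (z : ℝ) ^ 2) := by
  induction j with
  | zero => simp
  | succ j ih =>
    have ih' := ih (by omega)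
    have hκ := hk (z + j + 1) (by omega) (by omega)
    have hj0 : (0 : ℝ) ≤ j := Nat.cast_nonneg j
    set m : ℝ := (z : ℝ) + j + 1 with hm
    have hm0 : 0 < m := by positivity
    have hE : Real.exp (-(κ (z + j + 1) / (((z + j : ℕ) : ℝ) + 1))) ≤ m / (m + κb) := by
      have e1 : (((z + j : ℕ) : ℝ) + 1) = m := by push_cast; rfl
      rw [e1, Real.exp_neg, ← one_div, div_le_div_iff₀ (Real.exp_pos _) (by positivity)]
      have h3 := Real.add_one_le_exp (κ (z + j + 1) / m)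
      have h4 : m * (κ (z + j + 1) / m + 1) = κ (z + j + 1) + m := by field_simp
      nlinarith
    have hstep : (1 - κb * j / z + 6 * (j : ℝ) ^ 2 / (z : ℝ) ^ 2) * (m / (m + κb)) ≤
        1 - κb * ((j : ℝ) + 1) / z + 6 * ((j : ℝ) + 1) ^ 2 / (z : ℝ) ^ 2 := by
      rw [← mul_div_assoc, div_le_iff₀ (by positivity), ← sub_nonneg]
      have e2 : (1 - κb * ((j : ℝ) + 1) / z + 6 * ((j : ℝ) + 1) ^ 2 / (z : ℝ) ^ 2) * (m + κb) -
          (1 - κb * j / z + 6 * (j : ℝ) ^ 2 / (z : ℝ) ^ 2) * m =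
          ((6 * (2 * j + 1) - (κb + κb ^ 2) * (j + 1)) * z + 6 * (2 * j + 1) * (j + 1) +
            6 * κb * (j + 1) ^ 2) / (z : ℝ) ^ 2 := by
        rw [hm]; field_simp; ring
      rw [e2]
      have h5 : κb + κb ^ 2 ≤ 6 := by nlinarith
      have h6 : 0 ≤ 6 * (2 * (j : ℝ) + 1) - (κb + κb ^ 2) * (j + 1) := by nlinarith
      positivity
    rw [← add_assoc, gg_succ]
    push_cast at hE ⊢
    calc gg κ (z + j) * Real.exp (-(κ (z + j + 1) / ((z : ℝ) + j + 1)))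
        ≤ gg κ (z + j) * (m / (m + κb)) := mul_le_mul_of_nonneg_left hE (gg_pos _ _).le
      _ ≤ gg κ z * (1 - κb * j / z + 6 * (j : ℝ) ^ 2 / (z : ℝ) ^ 2) * (m / (m + κb)) :=
          mul_le_mul_of_nonneg_right ih' (by positivity)
      _ ≤ _ := by
          rw [mul_assoc]
          exact mul_le_mul_of_nonneg_left hstep (gg_pos _ _).le

theorem ff_up {κ : ℕ → ℝ} {κb : ℝ} {z : ℕ} (hz : (0 : ℝ) < z) (h0 : 0 ≤ κb) (h2 : κb ≤ 2)
    (hk : ∀ n, 3 * z ≤ 4 * n → 4 * n ≤ 5 * z → κb ≤ κ n) (s : ℕ) (hs : 4 * s ≤ z) :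
    ff κ (z + s) - ff κ z ≤
      gg κ z * (s - κb * (s * ((s : ℝ) - 1)) / (2 * z) + 2 * (s : ℝ) ^ 3 / (z : ℝ) ^ 2) := by
  induction s with
  | zero => simp
  | succ s ih =>
    have ih' := ih (by omega)
    have h1 := gg_up hz h0 h2 hk s (by omega)
    have hs0 : (0 : ℝ) ≤ s := Nat.cast_nonneg s
    rw [← add_assoc, ff_succ]
    push_cast
    have e1 : ((s : ℝ) + 1 - κb * ((s + 1) * ((s : ℝ) + 1 - 1)) / (2 * z) +
        2 * ((s : ℝ) + 1) ^ 3 / (z : ℝ) ^ 2) =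
        (s - κb * (s * ((s : ℝ) - 1)) / (2 * z) + 2 * (s : ℝ) ^ 3 / (z : ℝ) ^ 2) +
        (1 - κb * s / z + 6 * (s : ℝ) ^ 2 / (z : ℝ) ^ 2) + (6 * s + 2) / (z : ℝ) ^ 2 := by
      field_simp; ring
    rw [e1, mul_add, mul_add]
    have h3 : 0 ≤ gg κ z * ((6 * s + 2) / (z : ℝ) ^ 2) :=
      mul_nonneg (gg_pos _ _).le (by positivity)
    linarith

theorem down {κ : ℕ → ℝ} {κb : ℝ} {z : ℕ} (hz : (0 : ℝ) < z) (h0 : 0 ≤ κb)
    (hk : ∀ n, 3 * z ≤ 4 * n → 4 * n ≤ 5 * z → κb ≤ κ n) :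
    ∀ a x : ℕ, x + a = z → 4 * a ≤ z →
      gg κ z * (1 + κb * a / z) ≤ gg κ x ∧
      gg κ z * (a + κb * (a * ((a : ℝ) + 1)) / (2 * z)) ≤ ff κ z - ff κ x := by
  intro a
  induction a with
  | zero => intro x hx _; simp at hx; simp [hx]
  | succ a ih =>
    intro x hx ha
    obtain ⟨h1, h2⟩ := ih (x + 1) (by omega) (by omega)
    have hκ := hk (x + 1) (by omega) (by omega)
    have ha0 : (0 : ℝ) ≤ a := Nat.cast_nonneg a
    have hxz : (x : ℝ) + 1 ≤ z := by exact_mod_cast (show x + 1 ≤ z by omega)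
    have hx0 : (0 : ℝ) < (x : ℝ) + 1 := by positivity
    have hE : 1 + κb / z ≤ Real.exp (κ (x + 1) / ((x : ℝ) + 1)) := by
      have h3 := Real.add_one_le_exp (κ (x + 1) / ((x : ℝ) + 1))
      have h4 : κb / z ≤ κ (x + 1) / ((x : ℝ) + 1) :=
        div_le_div₀ (h0.trans hκ) hκ hx0 hxz
      linarith
    have e1 : gg κ x = gg κ (x + 1) * Real.exp (κ (x + 1) / ((x : ℝ) + 1)) := by
      rw [gg_succ, mul_assoc, ← Real.exp_add]; simp
    have hg := gg_pos κ z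
    have h5 : gg κ z * (1 + κb * ((a : ℝ) + 1) / z) ≤ gg κ x := by
      rw [e1]
      calc gg κ z * (1 + κb * ((a : ℝ) + 1) / z)
          ≤ gg κ z * (1 + κb * a / z) * (1 + κb / z) := by
            rw [mul_assoc]
            refine mul_le_mul_of_nonneg_left ?_ hg.le
            have e2 : (1 + κb * a / z) * (1 + κb / z) =
                1 + κb * ((a : ℝ) + 1) / z + κb * a / z * (κb / z) := by
              field_simp; ring
            rw [e2]
            have : 0 ≤ κb * a / z * (κb / z) := by positivity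
            linarith
        _ ≤ gg κ (x + 1) * (1 + κb / z) := mul_le_mul_of_nonneg_right h1 (by positivity)
        _ ≤ _ := mul_le_mul_of_nonneg_left hE (gg_pos _ _).le
    push_cast
    refine ⟨h5, ?_⟩
    rw [ff_succ] at h2
    have e3 : ((a : ℝ) + 1 + κb * ((a + 1) * ((a : ℝ) + 1 + 1)) / (2 * z)) =
        (a + κb * (a * ((a : ℝ) + 1)) / (2 * z)) + (1 + κb * ((a : ℝ) + 1) / z) := by
      field_simp; ring
    rw [e3, mul_add]
    linarith

theorem far {κb t z s : ℝ} (hz : 0 < z) (h2 : κb ≤ 2) (ht : 1 ≤ t) (hs : z ^ 2 ≤ 16 * s ^ 2) :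
    s ≤ Phi 1 κb 64 z t s := by
  have ht0 : 0 < t := by linarith
  have h1 : κb * s ^ 2 / (2 * z) ≤ 64 * t * s ^ 4 / z ^ 3 := by
    rw [div_le_div_iff₀ (by positivity) (by positivity)]
    have a1 : κb * s ^ 2 ≤ 2 * s ^ 2 := mul_le_mul_of_nonneg_right h2 (sq_nonneg s)
    have a2 : z ^ 2 ≤ 64 * t * s ^ 2 := by nlinarith [sq_nonneg s]
    calc κb * s ^ 2 * z ^ 3 ≤ 2 * s ^ 2 * z ^ 3 := mul_le_mul_of_nonneg_right a1 (by positivity)
      _ = (2 * s ^ 2 * z) * z ^ 2 := by ring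
      _ ≤ (2 * s ^ 2 * z) * (64 * t * s ^ 2) := mul_le_mul_of_nonneg_left a2 (by positivity)
      _ = 64 * t * s ^ 4 * (2 * z) := by ring
  have h3 : 0 ≤ 6 * s ^ 2 / (z * t) := by positivity
  have h4 : 0 ≤ 1 / t := by positivity
  unfold Phi
  linarith

theorem near {κb t z s : ℝ} (hz : 0 < z) (h2 : κb ≤ 2) (ht : 1 ≤ t) (htz : t ^ 2 ≤ z)
    (hs : 0 ≤ s) :
    s - κb * (s * (s - 1)) / (2 * z) + 2 * s ^ 3 / z ^ 2 ≤ Phi 1 κb 64 z t s := by
  have ht0 : 0 < t := by linarith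
  have h1 : κb * s / (2 * z) ≤ s ^ 2 / (z * t) + 1 / t := by
    have e1 : s ^ 2 / (z * t) + 1 / t - κb * s / (2 * z) =
        ((s - t / 2) ^ 2 + (z - t ^ 2 / 4) + (2 - κb) * s * t / 2) / (z * t) := by
      field_simp; ring
    have a1 : 0 ≤ z - t ^ 2 / 4 := by nlinarith [sq_nonneg t]
    have a2 : 0 ≤ 2 - κb := by linarith
    rw [← sub_nonneg, e1]
    positivity
  have h3 : 2 * s ^ 3 / z ^ 2 ≤ s ^ 2 / (z * t) + t * s ^ 4 / z ^ 3 := by
    have e1 : s ^ 2 / (z * t) + t * s ^ 4 / z ^ 3 - 2 * s ^ 3 / z ^ 2 =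
        (s * z - t * s ^ 2) ^ 2 / (z ^ 3 * t) := by
      field_simp; ring
    rw [← sub_nonneg, e1]
    positivity
  have h4 : 0 ≤ s ^ 2 / (z * t) := by positivity
  have h5 : 0 ≤ t * s ^ 4 / z ^ 3 := by positivity
  have e2 : κb * (s * (s - 1)) / (2 * z) = κb * s ^ 2 / (2 * z) - κb * s / (2 * z) := by ring
  have e3 : 6 * s ^ 2 / (z * t) = 6 * (s ^ 2 / (z * t)) := by ring
  have e4 : 64 * t * s ^ 4 / z ^ 3 = 64 * (t * s ^ 4 / z ^ 3) := by ring
  unfold Phi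
  rw [e2, e3, e4]
  linarith

theorem neard {κb t z a : ℝ} (hz : 0 < z) (h0 : 0 ≤ κb) (ht : 1 ≤ t) (ha : 0 ≤ a) :
    -(a + κb * (a * (a + 1)) / (2 * z)) ≤ Phi 1 κb 64 z t (-a) := by
  have ht0 : 0 < t := by linarith
  have h3 : 0 ≤ 6 * (-a) ^ 2 / (z * t) := by positivity
  have h4 : 0 ≤ 1 / t := by positivity
  have h5 : 0 ≤ 64 * t * (-a) ^ 4 / z ^ 3 := by positivity
  have h6 : 0 ≤ κb * a / (2 * z) := by positivity
  have e2 : κb * (a * (a + 1)) / (2 * z) = κb * (-a) ^ 2 / (2 * z) + κb * a / (2 * z) := by ring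
  unfold Phi
  rw [e2]
  linarith

end PUPx

theorem p_PUP :
    S_PUP := by
  intro κ κb t z x hκ h0 h2 ht htz hk
  have hz : (0 : ℝ) < z := by nlinarith
  have hc := PUPx.conc hκ z x
  refine ⟨?_, hc⟩
  have hg := gg_pos κ z
  by_cases hfar : (z : ℝ) ^ 2 ≤ 16 * ((x : ℝ) - z) ^ 2
  · exact hc.trans (mul_le_mul_of_nonneg_left (PUPx.far hz h2 ht hfar) hg.le)
  · rcases le_total z x with hx | hx
    · obtain ⟨s, rfl⟩ := Nat.exists_eq_add_of_le hx
      have hs0 : (0 : ℝ) ≤ s := Nat.cast_nonneg s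
      have e1 : (((z + s : ℕ) : ℝ) - z) = s := by push_cast; ring
      rw [e1] at hfar ⊢
      have hs : 4 * s ≤ z := by
        have : (4 : ℝ) * s ≤ z := by nlinarith
        exact_mod_cast this
      exact (PUPx.ff_up hz h0 h2 hk s hs).trans
        (mul_le_mul_of_nonneg_left (PUPx.near hz h2 ht htz hs0) hg.le)
    · obtain ⟨a, ha⟩ := Nat.exists_eq_add_of_le hx
      have ha0 : (0 : ℝ) ≤ a := Nat.cast_nonneg a
      have e1 : ((x : ℝ) - z) = -a := by rw [ha]; push_cast; ring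
      rw [e1] at hfar ⊢
      have hs : 4 * a ≤ z := by
        have : (4 : ℝ) * a ≤ z := by nlinarith
        exact_mod_cast this
      have h1 := (PUPx.down hz h0 hk a x ha.symm hs).2
      have h3 := mul_le_mul_of_nonneg_left (PUPx.neard hz h0 ht ha0) hg.le
      linarith

end Pool.Agent.P.MP_c7fa75_pr.R2
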